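import Mathlib
import Pool.Agent.H943.KP.QuadP
import Pool.Graph.R_pool_sql_team_seeded_1acbe0a2.Y91.L.Tens

/-!
# Irreducible submodules and primitive idempotents
-/

set_option autoImplicit false
set_option linter.unusedSectionVars false

namespace Pool.Agent.H943.KT

open Matrix Module Pool.Agent.W437.HC Pool.Agent.W437.HD Pool.Agent.W548.Odd

open Pool.Agent.Y90 (PM IrS Stab cjS pd qd eig DS)

open Pool.Agent.Y4.K (Pr Pol Eqv mu pr qr)

variable {g : ℕ} {Z : Matrix (Fin g) (Fin g) ℂ}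

theorem LZ_eq : Pool.Agent.Y90.LZ Z = Pool.Agent.Y4.H.LZ Z := by
  unfold Pool.Agent.Y90.LZ Pool.Agent.Y4.H.LZ
  rw [Pool.Agent.Y90.img_eq]

theorem Ct_iff {c : Matrix (Fin g ⊕ Fin g) (Fin g ⊕ Fin g) ℂ} :
    Pool.Agent.Y4.H.Ct Z c ↔ ∀ X ∈ Pool.Agent.Y90.LZ Z, c * X = X * c := by
  rw [LZ_eq]
  rfl

/-- An irreducible submodule is the range of a primitive idempotent. -/
theorem exists_pr (h : PM Z) {U : Submodule ℂ (Fin g ⊕ Fin g → ℂ)}
    (hU : IrS (Pool.Agent.Y90.LZ Z) U) :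
    ∃ φ : Pr Z, LinearMap.range (mulVecLin φ.e) = U := by
  obtain ⟨π, h1, h2, h3⟩ := h.cred U hU.2.1
  obtain ⟨e, he⟩ : ∃ e : Matrix (Fin g ⊕ Fin g) (Fin g ⊕ Fin g) ℂ, mulVecLin e = π :=
    ⟨LinearMap.toMatrix' π, by
      rw [← Matrix.toLin'_apply', Matrix.toLin'_toMatrix']⟩
  have hev : ∀ v, e *ᵥ v = π v := fun v => by rw [← he]; rfl
  have hmem : Pool.Agent.Y4.H.Ct Z e := by
    rw [Ct_iff]
    intro X hX
    apply Matrix.ext_of_mulVec_single
    intro i
    rw [← mulVec_mulVec, ← mulVec_mulVec, hev, hev]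
    exact h1 X hX _
  have hrange : LinearMap.range (mulVecLin e) = U := by
    rw [he]
    apply le_antisymm
    · rintro _ ⟨v, rfl⟩
      exact h2 v
    · intro u hu
      exact ⟨u, h3 u hu⟩
  have hidem : e * e = e := by
    apply Matrix.ext_of_mulVec_single
    intro i
    rw [← mulVec_mulVec, hev, hev]
    exact h3 _ (h2 _)
  refine ⟨⟨e, hmem, hidem, ?_, ?_⟩, hrange⟩
  · intro h0
    apply hU.1
    rw [← hrange, h0, mulVecLin_zero, LinearMap.range_zero]
  · intro c hc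
    rw [Ct_iff] at hc hmem
    -- an eigenvalue of `e c` on `U`
    have hst : ∀ u ∈ U, (mulVecLin (e * c)) u ∈ U := by
      intro u _
      rw [mulVecLin_apply, ← mulVec_mulVec, hev]
      exact h2 _
    let f : U →ₗ[ℂ] U := (mulVecLin (e * c)).restrict hst
    have hnt : Nontrivial U := by
      rw [Submodule.nontrivial_iff_ne_bot]
      exact hU.1
    obtain ⟨lam, hlam⟩ := Module.End.exists_eigenvalue f
    refine ⟨lam, ?_⟩
    obtain ⟨u, hu⟩ := hlam.exists_hasEigenvector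
    let W : Submodule ℂ (Fin g ⊕ Fin g → ℂ) :=
      U ⊓ LinearMap.ker (mulVecLin (e * c) - lam • LinearMap.id)
    have hW : Stab (Pool.Agent.Y90.LZ Z) W := by
      rintro X hX w ⟨hw1, hw2⟩
      refine ⟨hU.2.1 X hX w hw1, ?_⟩
      rw [SetLike.mem_coe, LinearMap.mem_ker, LinearMap.sub_apply, mulVecLin_apply,
        LinearMap.smul_apply, LinearMap.id_apply, sub_eq_zero] at hw2 ⊢
      rw [mulVec_mulVec, mul_assoc, hc X hX, ← mul_assoc, hmem X hX, mul_assoc, ← mulVec_mulVec,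
        hw2, mulVec_smul]
    rcases hU.2.2 W inf_le_left hW with h4 | h4
    · exfalso
      apply hu.2
      have h5 : (u : Fin g ⊕ Fin g → ℂ) ∈ W := by
        refine ⟨u.2, ?_⟩
        rw [SetLike.mem_coe, LinearMap.mem_ker, LinearMap.sub_apply, LinearMap.smul_apply,
          LinearMap.id_apply, sub_eq_zero]
        exact congrArg Subtype.val hu.apply_eq_smul
      rw [h4, Submodule.mem_bot] at h5
      exact Subtype.ext h5
    · apply Matrix.ext_of_mulVec_single
      intro i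
      have h5 : e *ᵥ (Pi.single i 1 : Fin g ⊕ Fin g → ℂ) ∈ W := by
        rw [h4, hev]
        exact h2 _
      have h6 := h5.2
      rw [SetLike.mem_coe, LinearMap.mem_ker, LinearMap.sub_apply, mulVecLin_apply,
        LinearMap.smul_apply, LinearMap.id_apply, sub_eq_zero] at h6
      rw [← mulVec_mulVec, h6, smul_mulVec]

/-- The conjugates. -/
theorem range_act (M : Pol Z) (σ : ℂ ≃+* ℂ) (φ : Pr Z) :
    LinearMap.range (mulVecLin (M.act σ φ).e) = cjS σ (LinearMap.range (mulVecLin φ.e)) := by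
  have key : ∀ v : Fin g ⊕ Fin g → ℂ, v ∈ LinearMap.range (mulVecLin φ.e) ↔ φ.e *ᵥ v = v := by
    intro v
    constructor
    · rintro ⟨w, rfl⟩
      rw [mulVecLin_apply, mulVec_mulVec, φ.idem]
    · intro h
      exact ⟨v, h⟩
  have key' : ∀ v : Fin g ⊕ Fin g → ℂ, v ∈ LinearMap.range (mulVecLin (M.act σ φ).e) ↔
      (M.act σ φ).e *ᵥ v = v := by
    intro v
    constructor
    · rintro ⟨w, rfl⟩
      rw [mulVecLin_apply, mulVec_mulVec, (M.act σ φ).idem]
    · intro h
      exact ⟨v, h⟩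
  ext v
  rw [key', Pool.Agent.Y90.mem_cjS, key, M.act_e]
  constructor
  · intro h
    funext i
    have h1 := congrArg σ.symm (congrFun h i)
    rw [← h1]
    simp only [mulVec, dotProduct, Matrix.map_apply, map_sum, map_mul]
    refine Finset.sum_congr rfl fun j _ => ?_
    rw [RingEquiv.coe_toRingHom, RingEquiv.symm_apply_apply]
  · intro h
    funext i
    have h1 := congrArg σ (congrFun h i)
    rw [RingEquiv.apply_symm_apply] at h1
    rw [← h1]
    simp only [mulVec, dotProduct, Matrix.map_apply, map_sum, map_mul]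
    refine Finset.sum_congr rfl fun j _ => ?_
    rw [RingEquiv.coe_toRingHom, RingEquiv.apply_symm_apply]

/-- The multiplicities. -/
theorem pd_eq (M : Pol Z) (φ : Pr Z) :
    pd Z (LinearMap.range (mulVecLin φ.e)) = mu φ := by
  unfold pd mu
  suffices h0 : LinearMap.range (mulVecLin φ.e) ⊓ eig Z 1 = LinearMap.range (mulVecLin (pr φ)) by
    rw [h0]
  ext v
  constructor
  · rintro ⟨⟨w, rfl⟩, h⟩
    refine ⟨φ.e *ᵥ w, ?_⟩
    rw [SetLike.mem_coe, Pool.Agent.Y90.mem_eig, one_smul, mulVecLin_apply] at h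
    rw [mulVecLin_apply, mulVecLin_apply, pr, smul_mulVec, mulVec_mulVec, mul_assoc, φ.idem,
      ← mulVec_mulVec, add_mulVec, one_mulVec, h, ← two_smul ℂ, smul_smul]
    norm_num
  · rintro ⟨w, rfl⟩
    refine ⟨⟨pr φ *ᵥ w, ?_⟩, ?_⟩
    · rw [mulVecLin_apply, mulVecLin_apply, mulVec_mulVec, Pool.Agent.Y4.K.e_pr]
    · rw [SetLike.mem_coe, Pool.Agent.Y90.mem_eig, one_smul, mulVecLin_apply, mulVec_mulVec, pr,
        Matrix.mul_smul, ← mul_assoc, mul_add, M.D_sq, mul_one, add_comm]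

theorem qd_eq (M : Pol Z) (φ : Pr Z) :
    qd Z (LinearMap.range (mulVecLin φ.e)) = mu (M.bar φ) := by
  have h1 : qd Z (LinearMap.range (mulVecLin φ.e)) =
      finrank ℂ (LinearMap.range (mulVecLin (qr φ))) := by
    unfold qd
    suffices h0 : LinearMap.range (mulVecLin φ.e) ⊓ eig Z (-1) =
        LinearMap.range (mulVecLin (qr φ)) by
      rw [h0]
    ext v
    constructor
    · rintro ⟨⟨w, rfl⟩, h⟩
      refine ⟨φ.e *ᵥ w, ?_⟩
      rw [SetLike.mem_coe, Pool.Agent.Y90.mem_eig, mulVecLin_apply] at h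
      rw [mulVecLin_apply, mulVecLin_apply, qr, smul_mulVec, mulVec_mulVec, mul_assoc, φ.idem,
        ← mulVec_mulVec, sub_mulVec, one_mulVec, h, neg_smul, one_smul, sub_neg_eq_add,
        ← two_smul ℂ, smul_smul]
      norm_num
    · rintro ⟨w, rfl⟩
      refine ⟨⟨qr φ *ᵥ w, ?_⟩, ?_⟩
      · rw [mulVecLin_apply, mulVecLin_apply, mulVec_mulVec, Pool.Agent.Y4.K.e_qr]
      · rw [SetLike.mem_coe, Pool.Agent.Y90.mem_eig, mulVecLin_apply, mulVec_mulVec, qr,
          Matrix.mul_smul, ← mul_assoc, mul_sub, M.D_sq, mul_one, smul_mulVec, smul_mulVec]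
        have e1 : (DZ Z - 1) * φ.e = -((1 - DZ Z) * φ.e) := by noncomm_ring
        rw [e1, neg_mulVec]
        module
  have h2 : ((finrank ℂ (LinearMap.range (mulVecLin (qr φ))) : ℕ) : ℂ) =
      ((mu (M.bar φ) : ℕ) : ℂ) := by
    rw [← M.trace_qr, Pool.Agent.Y4.G.trace_idemM (M.qr_idem φ)]
  rw [h1]
  exact_mod_cast h2

end Pool.Agent.H943.KT
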