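import Mathlib
import Pool.Agent.H943.KT.Brg

/-!
# Rank one elements and separation from the conditions on the signature
-/

set_option autoImplicit false
set_option linter.unusedSectionVars false

namespace Pool.Agent.H943.KT

open Matrix Module Pool.Agent.W437.HC Pool.Agent.W437.HD Pool.Agent.W548.Odd

open Pool.Agent.Y90 (PM IrS Stab cjS pd qd eig DS)

open Pool.Agent.Y4.K (Pr Pol Eqv mu pr qr)

open Pool.Agent.Y224.TS (RkC TD)

open Pool.Agent.Y224.TS.PQ (SepP)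

variable {g : ℕ} {Z : Matrix (Fin g) (Fin g) ℂ}

theorem pd_act (M : Pol Z) (σ : ℂ ≃+* ℂ) (φ : Pr Z) :
    pd Z (cjS σ (LinearMap.range (mulVecLin φ.e))) = mu (M.act σ φ) := by
  rw [← range_act M, pd_eq M]

theorem qd_act (M : Pol Z) (σ : ℂ ≃+* ℂ) (φ : Pr Z) :
    qd Z (cjS σ (LinearMap.range (mulVecLin φ.e))) = mu (M.bar (M.act σ φ)) := by
  rw [← range_act M, qd_eq M]

theorem finrank_range (M : Pol Z) (φ : Pr Z) :
    finrank ℂ (LinearMap.range (mulVecLin φ.e)) = mu φ + mu (M.bar φ) := by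
  have h1 := M.trace_e φ
  rw [Pool.Agent.Y4.G.trace_idemM φ.idem] at h1
  exact_mod_cast h1

/-- Elements of rank one. -/
theorem rkC_of_cop (h : PM Z) (M : Pol Z) (hc : M.Cop) {U : Submodule ℂ (Fin g ⊕ Fin g → ℂ)}
    (hU : IrS (Pool.Agent.Y90.LZ Z) U) (hn : 2 ≤ finrank ℂ U) : RkC Z U := by
  obtain ⟨φ, rfl⟩ := exists_pr h hU
  obtain ⟨σ, hσ⟩ := hc φ
  rw [finrank_range M, ← M.mu_act σ] at hn
  right; right; left
  refine ⟨σ, ?_, ?_, ?_⟩
  · rw [pd_act M, Nat.pos_iff_ne_zero]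
    intro h0
    rw [h0, Nat.coprime_zero_left] at hσ
    omega
  · rw [qd_act M, Nat.pos_iff_ne_zero]
    intro h0
    rw [h0, Nat.coprime_zero_right] at hσ
    omega
  · rw [pd_act M, qd_act M]
    exact hσ

/-- Separation. -/
theorem sepP_of_sep (h : PM Z) (M : Pol Z) (hc : M.Cop) (hs : M.Sep)
    {U U' : Submodule ℂ (Fin g ⊕ Fin g → ℂ)} (hU : IrS (Pool.Agent.Y90.LZ Z) U)
    (hU' : IrS (Pool.Agent.Y90.LZ Z) U') (hn : 2 ≤ finrank ℂ U) : SepP Z U U' := by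
  obtain ⟨φ, rfl⟩ := exists_pr h hU
  obtain ⟨ψ, rfl⟩ := exists_pr h hU'
  intro hfr hyp
  rw [finrank_range M, finrank_range M] at hfr
  rw [finrank_range M] at hn ⊢
  simp only [pd_act M, qd_act M] at hyp ⊢
  by_cases h1 : Eqv ψ φ
  · left
    intro σ
    exact (M.mu_eqv (M.eqv_act h1 σ)).symm
  by_cases h2 : Eqv ψ (M.bar φ)
  · right
    have h3 : ∀ σ : ℂ ≃+* ℂ, mu (M.act σ ψ) = mu (M.bar (M.act σ φ)) := by
      intro σ
      rw [M.mu_eqv (M.eqv_act h2 σ), M.bar_act]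
    have h4 : ∀ σ : ℂ ≃+* ℂ, mu (M.act σ φ) + mu (M.bar (M.act σ φ)) = mu φ + mu (M.bar φ) :=
      fun σ => M.mu_act σ φ
    obtain ⟨σ, hσ⟩ := hc φ
    have h5 : mu φ + mu (M.bar φ) = 2 := by
      rcases hyp σ with h6 | ⟨h6, -⟩
      · rw [h3] at h6
        have h7 := h4 σ
        rw [← h6, Nat.coprime_self] at hσ
        omega
      · exfalso
        have h7 := h4 σ
        rcases h6 with h6 | h6
        · rw [h6, Nat.coprime_zero_left] at hσ
          omega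
        · rw [h6, Nat.coprime_zero_right] at hσ
          omega
    refine ⟨h5, fun σ => ?_⟩
    rw [h3, h4, h5]
  · left
    refine hs φ ψ h1 h2 hfr.symm (by omega) fun σ => ?_
    rcases hyp σ with h3 | ⟨h3, h4⟩
    · exact Or.inl h3
    · right
      exact ⟨mul_eq_zero.2 h3, mul_eq_zero.2 h4⟩

end Pool.Agent.H943.KT
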