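import Mathlib
import Pool.Agent.H943.KT.Loc
import Pool.Graph.R_pool_sql_team_seeded_1acbe0a2.Y71.OD2.Duo

/-!
# Tate tensors are combinations of Hodge tensors
-/

set_option autoImplicit false
set_option linter.unusedSectionVars false

namespace Pool.Agent.H943.KT

open Matrix Module Pool.Agent.W437.HC Pool.Agent.W437.HD Pool.Agent.W548.Odd Pool.Agent.Y90
open Pool.Agent.H204R3.SP Pool.Agent.H204R3.GP TensorProduct Pool.Agent.Y224.TS
open Pool.Agent.Y224.TS.St (IsHodgeTate IsTateModule)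
open Pool.Agent.H204R3.CM (HodgeMul)
open Pool.Agent.TH504.CB (evalF_castK rot_of_act act_real)
open Pool.Agent.W437.HP (cK cK_mul cK_one)
open Pool.Agent.Y4.K (Pr Pol Eqv mu pr qr)

variable {g : ℕ} {Z : Matrix (Fin g) (Fin g) ℂ} {K : Type} [Field K] [CharZero K] [Algebra K ℂ]
  {Γ : Type} [Group Γ] {ρ : Representation K Γ (K ⊗[ℚ] (Fin g ⊕ Fin g → ℚ))} {χ : Γ →* K}

/-- The Riemann form. -/
def riem (g : ℕ) (v w : Fin g ⊕ Fin g → ℚ) : ℚ := w ⬝ᵥ (Om g ℚ *ᵥ v)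

/-- **Tate tensors are combinations of Hodge tensors.** -/
theorem tate_hodge [Algebra.IsAlgebraic K ℂ] (hZ : PM Z) (M : Pol Z) (hc : M.Cop) (hs : M.Sep)
    (hρ : IsTateModule (perOne Z) (riem g) ρ χ) {κ : Type}
    [Finite κ] {n : ℕ} (hκ : Nat.card κ = 2 * n)
    (φ : MultilinearMap K (fun _ : κ => K ⊗[ℚ] (Fin g ⊕ Fin g → ℚ)) K)
    (hφ : ∃ Δ : Subgroup Γ, Δ.FiniteIndex ∧ ∀ s ∈ Δ, ∀ v : κ → K ⊗[ℚ] (Fin g ⊕ Fin g → ℚ),
      φ (fun k => ρ s (v k)) = χ s ^ n * φ v) :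
    ∃ (N : ℕ) (c : Fin N → K)
      (f : Fin N → MultilinearMap ℚ (fun _ : κ => (Fin g ⊕ Fin g → ℚ)) ℚ),
      (∀ j, HodgeMul (perOne Z) (f j)) ∧
        ∀ v : κ → (Fin g ⊕ Fin g → ℚ), φ (fun k => (1 : K) ⊗ₜ[ℚ] v k) =
          ∑ j, c j * ((f j v : ℚ) : K) := by
  classical
  obtain ⟨b, hbb⟩ : ∃ b, b = Pi.basisFun ℚ (Fin g ⊕ Fin g) := ⟨_, rfl⟩
  have hbe : ∀ v, b.equivFun v = v := by
    intro v
    rw [hbb]
    rfl
  have hbe' : ∀ v, b.equivFun.symm v = v := by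
    intro v
    rw [LinearEquiv.symm_apply_eq, hbe]
  have hper : (perOne Z).comp b.equivFun.symm.toLinearMap.toAddMonoidHom = perOne Z := by
    apply AddMonoidHom.ext
    intro v
    change perOne Z (b.equivFun.symm v) = perOne Z v
    rw [hbe']
  have hC : Cht ((perOne Z).comp b.equivFun.symm.toLinearMap.toAddMonoidHom) (JR Z) := by
    rw [hper]
    exact hZ.cht
  have hb : ∀ p q, riem g (b q) (b p) = Om g ℚ p q := by
    intro p q
    rw [hbb, riem, Pi.basisFun_apply, Pi.basisFun_apply, mulVec_single_one,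
      single_dotProduct, one_mul]
    rfl
  have hTD : TD Z (SH (perOne Z) ρ χ b) := td_of b hb hC hρ
  let _ : Fintype κ := Fintype.ofFinite κ
  have e : κ ≃ Fin n × Fin 2 := Fintype.equivOfCardEq (by
    rw [← Nat.card_eq_fintype_card, hκ, Fintype.card_prod, Fintype.card_fin, Fintype.card_fin,
      mul_comm])
  let φ' : MultilinearMap K (fun _ : Fin n × Fin 2 => K ⊗[ℚ] (Fin g ⊕ Fin g → ℚ)) K :=
    φ.domDomCongr e
  have hφ' : ∀ v, φ' v = φ (fun k => v (e k)) := fun v => rfl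
  have hT : IsTate ρ χ n φ' := by
    obtain ⟨Δ, hΔ, h⟩ := hφ
    refine ⟨Δ, hΔ, fun s hs v => ?_⟩
    rw [hφ', hφ']
    exact h s hs (fun k => v (e k))
  have hkill := Pool.Agent.Y91.L.tate_kill hTD hZ
    (fun U hU hn => hTD.rk_of hZ hU hn (rkC_of_cop hZ M hc hU hn))
    (fun U U' hU hU' hn => sepP_of_sep hZ M hc hs hU hU' hn) (FC b φ') (FC_kills b φ' hT)
  -- the rational parts
  obtain ⟨per', hper'⟩ : ∃ per' : (Fin g ⊕ Fin g → ℚ) →+ (Fin g → ℂ),
    per' = (perOne Z).comp b.equivFun.symm.toLinearMap.toAddMonoidHom := ⟨_, rfl⟩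
  rw [← hper'] at hC
  let S : Set ((Fin n × Fin 2 → (Fin g ⊕ Fin g → ℚ)) → K) :=
    {s | ∃ r : MultilinearMap ℚ (fun _ : Fin n × Fin 2 => (Fin g ⊕ Fin g → ℚ)) ℚ,
      HodgeMul per' r ∧ s = fun v => ((r v : ℚ) : K)}
  have h2 : (fun v : Fin n × Fin 2 → (Fin g ⊕ Fin g → ℚ) =>
      algebraMap K ℂ (φ' (fun k => (1 : K) ⊗ₜ[ℚ] b.equivFun.symm (v k)))) ∈
        Submodule.span ℂ {g' : (Fin n × Fin 2 → Fin g ⊕ Fin g → ℚ) → ℂ |
          ∃ s ∈ S, g' = fun v => algebraMap K ℂ (s v)} := by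
    obtain ⟨m, c, l, hml⟩ := Pool.Agent.Y90.rat_expand (FC b φ')
    have h3 : (fun v : Fin n × Fin 2 → (Fin g ⊕ Fin g → ℚ) =>
        algebraMap K ℂ (φ' (fun k => (1 : K) ⊗ₜ[ℚ] b.equivFun.symm (v k)))) =
        ∑ j, c j • fun v : Fin n × Fin 2 → (Fin g ⊕ Fin g → ℚ) =>
          algebraMap K ℂ (((evalM (fun I => l j (CF (FC b φ') I)) v : ℚ) : K)) := by
      funext v
      rw [← FC_rat, hml v, Finset.sum_apply]
      refine Finset.sum_congr rfl fun j _ => ?_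
      rw [Pi.smul_apply, smul_eq_mul, map_ratCast, lam_eval, evalM_apply]
    rw [h3]
    refine Submodule.sum_mem _ fun j _ => Submodule.smul_mem _ _ (Submodule.subset_span ?_)
    refine ⟨_, ⟨evalM (fun I => l j (CF (FC b φ') I)),
      Pool.Agent.Y91.L.hodgeMul_of hC ?_, rfl⟩, rfl⟩
    exact kill_lam gal_LZ hkill (l j) _ DZ_mem
  have h3 : (fun v : Fin n × Fin 2 → (Fin g ⊕ Fin g → ℚ) =>
      φ' (fun k => (1 : K) ⊗ₜ[ℚ] b.equivFun.symm (v k))) ∈ Submodule.span K S := by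
    refine span_descent_k (Ω := ℂ) S _ ?_
    refine Submodule.span_mono ?_ h2
    rintro g ⟨s, hs, rfl⟩
    exact ⟨s, hs, rfl⟩
  obtain ⟨N, c, s, hs'⟩ := Submodule.mem_span_set'.1 h3
  choose r hr hr' using fun j => (s j).2
  refine ⟨N, c, fun j => (r j).domDomCongr e.symm, fun j => ?_, fun v => ?_⟩
  · obtain ⟨ψ, h4, h5⟩ := hr j
    refine ⟨ψ.domDomCongr e.symm, fun v => ?_, fun z hz u => ?_⟩
    · rw [MultilinearMap.domDomCongr_apply, MultilinearMap.domDomCongr_apply, ← h4]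
      congr 1
      funext k
      rw [hper', hper]
    · rw [MultilinearMap.domDomCongr_apply, MultilinearMap.domDomCongr_apply]
      exact h5 z hz _
  · have h4 := congrFun hs' (fun k => v (e.symm k))
    beta_reduce at h4
    rw [hφ'] at h4
    have h5 : (fun k => (1 : K) ⊗ₜ[ℚ] b.equivFun.symm (v (e.symm (e k)))) =
        fun k => (1 : K) ⊗ₜ[ℚ] v k := by
      funext k
      rw [hbe', Equiv.symm_apply_apply]
    rw [h5] at h4
    rw [← h4, Finset.sum_apply]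
    refine Finset.sum_congr rfl fun j _ => ?_
    rw [Pi.smul_apply, smul_eq_mul, hr' j]
    rfl

end Pool.Agent.H943.KT
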