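import Mathlib
import Pool.Agent.H943.KT.Tate

/-!
# Tate classes on powers
-/

set_option autoImplicit false
set_option linter.unusedSectionVars false

namespace Pool.Agent.H943.KT

open Matrix Module Pool.Agent.W437.HC Pool.Agent.W437.HD Pool.Agent.Y90 TensorProduct
open Pool.Agent.Y224.TS.St (IsHodgeTate IsTateModule)
open Pool.Agent.H204R3.CM (HodgeMul IsHodge)
open Pool.Agent.Y4.K (Pr Pol Eqv mu pr qr)

variable {g : ℕ} {Z : Matrix (Fin g) (Fin g) ℂ} {K : Type} [Field K] [CharZero K] [Algebra K ℂ]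
  {Γ : Type} [Group Γ] {ρ : Representation K Γ (K ⊗[ℚ] (Fin g ⊕ Fin g → ℚ))} {χ : Γ →* K}

/-- Alternation. -/
theorem alt_sum {k : ℕ} {κ : Type} [Fintype κ] [DecidableEq κ]
    (φ : (Fin k → K ⊗[ℚ] (Fin g ⊕ Fin g → ℚ)) [⋀^κ]→ₗ[K] K) {J : Type} [Fintype J] (c : J → K)
    (F : J → MultilinearMap ℚ (fun _ : κ => (Fin k → Fin g ⊕ Fin g → ℚ)) ℚ)
    (h : ∀ v : κ → Fin k → Fin g ⊕ Fin g → ℚ, φ (fun x i => (1 : K) ⊗ₜ[ℚ] v x i) =
      ∑ j, c j * ((F j v : ℚ) : K)) (v : κ → Fin k → Fin g ⊕ Fin g → ℚ) :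
    φ (fun x i => (1 : K) ⊗ₜ[ℚ] v x i) = ∑ j, c j / (((Fintype.card κ).factorial : ℕ) : K) *
      ((MultilinearMap.alternatization (F j) v : ℚ) : K) := by
  have hM : (((Fintype.card κ).factorial : ℕ) : K) ≠ 0 := by
    exact_mod_cast (Nat.factorial_pos _).ne'
  have h1 : ∀ σ : Equiv.Perm κ, ((Equiv.Perm.sign σ : ℤ) : K) *
      ∑ j, c j * ((F j (fun x => v (σ x)) : ℚ) : K) = φ (fun x i => (1 : K) ⊗ₜ[ℚ] v x i) := by
    intro σ
    have h2 := h (fun x => v (σ x))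
    rw [← h2]
    have h3 := φ.map_perm (fun x i => (1 : K) ⊗ₜ[ℚ] v x i) σ
    have h4 : φ (fun x i => (1 : K) ⊗ₜ[ℚ] v (σ x) i) =
        ((Equiv.Perm.sign σ : ℤ) : K) * φ (fun x i => (1 : K) ⊗ₜ[ℚ] v x i) := by
      refine Eq.trans h3 ?_
      rw [Units.smul_def, zsmul_eq_mul]
    rw [h4, ← mul_assoc, ← Int.cast_mul, ← Units.val_mul, Int.units_mul_self, Units.val_one,
      Int.cast_one, one_mul]
  have h5 : ∑ j, c j * ((MultilinearMap.alternatization (F j) v : ℚ) : K) =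
      ∑ σ : Equiv.Perm κ, ((Equiv.Perm.sign σ : ℤ) : K) *
        ∑ j, c j * ((F j (fun x => v (σ x)) : ℚ) : K) := by
    simp only [Finset.mul_sum]
    rw [Finset.sum_comm]
    refine Finset.sum_congr rfl fun j _ => ?_
    rw [MultilinearMap.alternatization_apply, Rat.cast_sum, Finset.mul_sum]
    refine Finset.sum_congr rfl fun σ _ => ?_
    rw [Units.smul_def, zsmul_eq_mul, Rat.cast_mul, Rat.cast_intCast]
    change c j * (_ * ((F j (fun x => v (σ x)) : ℚ) : K)) = _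
    ring
  have h6 : ∑ j, c j * ((MultilinearMap.alternatization (F j) v : ℚ) : K) =
      (((Fintype.card κ).factorial : ℕ) : K) * φ (fun x i => (1 : K) ⊗ₜ[ℚ] v x i) := by
    rw [h5, Finset.sum_congr rfl fun σ _ => h1 σ, Finset.sum_const, Finset.card_univ,
      Fintype.card_perm, nsmul_eq_mul]
  have h7 : ∑ j, c j / (((Fintype.card κ).factorial : ℕ) : K) *
      ((MultilinearMap.alternatization (F j) v : ℚ) : K) =
      (((Fintype.card κ).factorial : ℕ) : K)⁻¹ *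
        ∑ j, c j * ((MultilinearMap.alternatization (F j) v : ℚ) : K) := by
    rw [Finset.mul_sum]
    refine Finset.sum_congr rfl fun j _ => ?_
    rw [div_eq_mul_inv]
    ring
  rw [h7, h6, ← mul_assoc, inv_mul_cancel₀ hM, one_mul]

/-- **Tate classes on powers are combinations of Hodge classes.** -/
theorem tate_pow [Algebra.IsAlgebraic K ℂ] (hZ : PM Z) (M : Pol Z) (hc : M.Cop) (hs : M.Sep)
    (hρ : IsTateModule (perOne Z) (riem g) ρ χ) {k m : ℕ}
    (φ : (Fin k → K ⊗[ℚ] (Fin g ⊕ Fin g → ℚ)) [⋀^Fin m × Fin 2]→ₗ[K] K)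
    (hφ : ∃ Δ : Subgroup Γ, Δ.FiniteIndex ∧ ∀ s ∈ Δ,
      ∀ v : Fin m × Fin 2 → Fin k → K ⊗[ℚ] (Fin g ⊕ Fin g → ℚ),
        φ (fun x i => ρ s (v x i)) = χ s ^ m * φ v) :
    ∃ (N : ℕ) (c : Fin N → K)
      (f : Fin N → ((Fin k → Fin g ⊕ Fin g → ℚ) [⋀^Fin m × Fin 2]→ₗ[ℚ] ℚ)),
      (∀ j, IsHodge (perPow Z k) (f j)) ∧
        ∀ v : Fin m × Fin 2 → Fin k → Fin g ⊕ Fin g → ℚ,
          φ (fun x i => (1 : K) ⊗ₜ[ℚ] v x i) = ∑ j, c j * ((f j v : ℚ) : K) := by
  classical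
  let V : Type := K ⊗[ℚ] (Fin g ⊕ Fin g → ℚ)
  let φr : (Fin m × Fin 2 → Fin k) → MultilinearMap K (fun _ : Fin m × Fin 2 => V) K := fun r =>
    φ.toMultilinearMap.compLinearMap fun x => LinearMap.single K (fun _ : Fin k => V) (r x)
  have hφr : ∀ r u, φr r u = φ (fun x => Pi.single (r x) (u x)) := fun r u => rfl
  have hT : ∀ r, ∃ (N : ℕ) (c : Fin N → K)
      (f : Fin N → MultilinearMap ℚ (fun _ : Fin m × Fin 2 => (Fin g ⊕ Fin g → ℚ)) ℚ),
      (∀ j, HodgeMul (perOne Z) (f j)) ∧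
        ∀ v : Fin m × Fin 2 → (Fin g ⊕ Fin g → ℚ), φr r (fun k => (1 : K) ⊗ₜ[ℚ] v k) =
          ∑ j, c j * ((f j v : ℚ) : K) := by
    intro r
    refine tate_hodge hZ M hc hs hρ (by
      rw [Nat.card_eq_fintype_card, Fintype.card_prod, Fintype.card_fin, Fintype.card_fin,
        mul_comm]) (φr r) ?_
    obtain ⟨Δ, hΔ, h⟩ := hφ
    refine ⟨Δ, hΔ, fun s hs v => ?_⟩
    rw [hφr, hφr, ← h s hs]
    congr 1
    funext x i
    by_cases hi : i = r x
    · subst hi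
      rw [Pi.single_eq_same, Pi.single_eq_same]
    · rw [Pi.single_eq_of_ne hi, Pi.single_eq_of_ne hi, map_zero]
  choose N c f hf hφf using hT
  let J : Type := Σ r : (Fin m × Fin 2 → Fin k), Fin (N r)
  let F : J → MultilinearMap ℚ (fun _ : Fin m × Fin 2 => (Fin k → Fin g ⊕ Fin g → ℚ)) ℚ :=
    fun j => (f j.1 j.2).compLinearMap fun x => LinearMap.proj (j.1 x)
  have hF : ∀ j v, F j v = f j.1 j.2 (fun x => v x (j.1 x)) := fun j v => rfl
  have hsum : ∀ v : Fin m × Fin 2 → Fin k → Fin g ⊕ Fin g → ℚ,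
      φ (fun x i => (1 : K) ⊗ₜ[ℚ] v x i) = ∑ j : J, c j.1 j.2 * ((F j v : ℚ) : K) := by
    intro v
    have h1 : (fun (x : Fin m × Fin 2) (i : Fin k) => (1 : K) ⊗ₜ[ℚ] v x i) =
        fun x => ∑ i : Fin k, (Pi.single i ((1 : K) ⊗ₜ[ℚ] v x i) : Fin k → V) := by
      funext x
      exact (Finset.univ_sum_single _).symm
    rw [h1]
    have h2 := φ.toMultilinearMap.map_sum
      (fun (x : Fin m × Fin 2) (i : Fin k) => (Pi.single i ((1 : K) ⊗ₜ[ℚ] v x i) : Fin k → V))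
    refine Eq.trans h2 ?_
    rw [Fintype.sum_sigma]
    refine Finset.sum_congr rfl fun r _ => ?_
    have h3 := hφf r (fun x => v x (r x))
    rw [hφr] at h3
    exact h3
  have hHF : ∀ j, HodgeMul (perPow Z k) (F j) := by
    rintro ⟨r, j⟩
    obtain ⟨ψ, h1, h2⟩ := hf r j
    refine ⟨ψ.compLinearMap fun x => LinearMap.proj (r x), fun v => ?_, fun z hz u => ?_⟩
    · rw [MultilinearMap.compLinearMap_apply, hF]
      exact h1 (fun x => v x (r x))
    · rw [MultilinearMap.compLinearMap_apply, MultilinearMap.compLinearMap_apply]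
      exact h2 z hz (fun x => u x (r x))
  let e : J ≃ Fin (Fintype.card J) := Fintype.equivFin J
  refine ⟨Fintype.card J,
    fun j => c (e.symm j).1 (e.symm j).2 / (((Fintype.card (Fin m × Fin 2)).factorial : ℕ) : K),
    fun j => MultilinearMap.alternatization (F (e.symm j)), fun j => (hHF _).alternatization,
    fun v => ?_⟩
  rw [alt_sum φ (fun j : J => c j.1 j.2) F hsum v]
  exact Fintype.sum_equiv e _ _ fun j => by
    beta_reduce
    rw [Equiv.symm_apply_apply]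

end Pool.Agent.H943.KT
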