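import Mathlib
import Pool.Agent.H943.KT.Pow

/-!
# Tate classes on the powers of a product
-/

set_option autoImplicit false
set_option linter.unusedSectionVars false

namespace Pool.Agent.H943.KT

open Matrix Module NumberField Pool.Agent.W437.HC Pool.Agent.W437.HD Pool.Agent.Y90 TensorProduct
open Pool.Agent.H943 Pool.Agent.H943.KP
open Pool.Agent.Y224.TS.St (IsHodgeTate IsTateModule)
open Pool.Agent.Y4.K (Pr Pol Eqv mu pr qr)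

theorem riem_eq {g : ℕ} (v w : Fin g ⊕ Fin g → ℚ) : riem g v w =
    ∑ i, (w (Sum.inl i) * v (Sum.inr i) - w (Sum.inr i) * v (Sum.inl i)) := by
  rw [riem, Om, dotProduct, Fintype.sum_sum_type, ← Finset.sum_add_distrib]
  refine Finset.sum_congr rfl fun i _ => ?_
  simp [mulVec, dotProduct, fromBlocks, Matrix.one_apply]
  ring

/-- The conditions for a product. -/
theorem conds_all {g : ℕ} {Z : Matrix (Fin g) (Fin g) ℂ} (M : Pol Z) {ι : Type} [Fintype ι]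
    {D : ι → Type} [∀ i, DivisionRing (D i)]
    {F : ι → Type} [∀ i, Field (F i)] [∀ i, NumberField (F i)]
    {ρ : ∀ i, D i →ₙ+* KS.MQ g} {j : ∀ i, F i →+* D i} (hB : ∀ i, Bk Z (ρ i))
    (horth : ∀ i k, i ≠ k → ρ i 1 * ρ k 1 = 0) (hsum : ∑ i, ρ i 1 = 1)
    [∀ i, IsCMField (F i)] [∀ i, Algebra ℚ (D i)] [∀ i, Module.Finite ℚ (D i)]
    (hj : ∀ i a x, j i a * x = x * j i a) (n N : ι → ℕ) (t : ∀ i, (F i →+* ℂ) → ℕ)
    (hdeg : ∀ i, finrank ℚ (D i) = n i ^ 2 * finrank ℚ (Subalgebra.center ℚ (D i)))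
    (hdim : ∀ i, (ρ i 1).rank = finrank ℚ (F i) * (n i * N i))
    (hsig : ∀ i τ, finrank ℂ (TFn Z (fj (ρ i) (j i)) τ) = n i * t i τ)
    (hgood : ∀ i, Good3 (N i) (t i))
    (hpp : ∀ i k, i ≠ k → Nat.Coprime (N i) (N k) ∨
      ∃ p : ℕ, p.Prime ∧ p ≠ 2 ∧ (∃ a, N i = p ^ a) ∧ ∃ b, N k = p ^ b)
    (hind : ((∀ y : Em F, Nat.Coprime (N y.1) (Nat.card
        {π : (@MulAction.toPermHom (RingAut ℂ) (Em F) _ (emAct F)).range //
          (π : Equiv.Perm (Em F)) y = y})) ∧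
        ((∃ i k : ι, i ≠ k) → SepR ℂ (fun _ => True) t) ∧
        (∀ p : ℕ, p.Prime → p ≠ 2 → (∃ i k : ι, i ≠ k ∧ p ∣ N i ∧ p ∣ N k) →
          SepR (ZMod p) (fun i => p ∣ N i) t)) ∨
      ((∀ i, finrank ℚ (F i) = 2) ∧ (∀ i k, i ≠ k → IsEmpty (F i ≃+* F k)) ∧
        ∀ i, ¬ 2 ∣ N i)) : M.Cop ∧ M.Sep ∧ M.Nd := by
  rcases hind with ⟨h1, h2, h3⟩ | ⟨h1, h2, h3⟩
  · exact conds_prod M hB horth hsum hj n N t hdeg hdim hsig h1 hgood hpp (fun _ => h2)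
      (fun _ => h3)
  · exact conds_prod M hB horth hsum hj n N t hdeg hdim hsig (fun y => cop_quad h1 (h3 y.1) y)
      hgood hpp (fun hs _ => hQ_quad h1 h2 h3 hs)
      (fun hs p hp hp2 _ => hM_quad h1 h2 hs (fun i => place_good3 (hs i) (hgood i)) hp hp2)

/-- Tate classes on powers are combinations of products of divisors. -/
theorem tate_div {g : ℕ} {Z : Matrix (Fin g) (Fin g) ℂ} (M : Pol Z) (c1 : M.Cop) (c2 : M.Sep)
    (c3 : M.Nd) {K : Type} [Field K] [CharZero K] [Algebra K ℂ] [Algebra.IsAlgebraic K ℂ]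
    {Γ : Type} [Group Γ] {rep : Representation K Γ (K ⊗[ℚ] (Fin g ⊕ Fin g → ℚ))} {χ : Γ →* K}
    (hrep : IsTateModule (perOne Z) (riem g) rep χ) {k m : ℕ}
    (φ : (Fin k → K ⊗[ℚ] (Fin g ⊕ Fin g → ℚ)) [⋀^Fin m × Fin 2]→ₗ[K] K)
    (hφ : ∃ Δ : Subgroup Γ, Δ.FiniteIndex ∧ ∀ s ∈ Δ,
      ∀ v : Fin m × Fin 2 → Fin k → K ⊗[ℚ] (Fin g ⊕ Fin g → ℚ),
        φ (fun x i => rep s (v x i)) = χ s ^ m * φ v) :
    ∃ (N : ℕ) (c : Fin N → K)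
      (f : Fin N → ((Fin k → Fin g ⊕ Fin g → ℚ) [⋀^Fin m × Fin 2]→ₗ[ℚ] ℚ)),
      (∀ j, f j ∈ Pool.Agent.H194R3.CM.divisorial (perPow Z k) m) ∧
        ∀ v : Fin m × Fin 2 → Fin k → Fin g ⊕ Fin g → ℚ,
          φ (fun x i => (1 : K) ⊗ₜ[ℚ] v x i) = ∑ j, c j * ((f j v : ℚ) : K) := by
  obtain ⟨N, c, f, hf, h⟩ := tate_pow ⟨M.symm, M.pos⟩ M c1 c2 hrep φ hφ
  exact ⟨N, c, f, fun x => M.divisorial_all c1 c2 c3 (f x) (hf x), h⟩

end Pool.Agent.H943.KT
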