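import Mathlib
import Pool.Agent.H943.KT.Main

/-!
# Bilinear Hodge forms and endomorphisms
-/

set_option autoImplicit false
set_option linter.unusedSectionVars false

namespace Pool.Agent.H943.KT

open Matrix Module Pool.Agent.W437.HC Pool.Agent.W437.HD Pool.Agent.Y90 TensorProduct
open Pool.Agent.Y224.TS
open Pool.Agent.Y224.TS.St (IsHodgeTate IsTateModule)
open Pool.Agent.H204R3.CM (HodgeMul IsHodge)
open Pool.Agent.H194R3.CM (divisorial)
open Pool.Agent.Y4.K (Pr Pol Eqv mu pr qr)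
open Pool.Agent.W437.HP (cK cK_mul cK_one)

/-- the matrix of a bilinear form -/
def bmt {R : Type} [CommRing R] {B : Type} [DecidableEq B]
    (ψ : MultilinearMap R (fun _ : Fin 2 => B → R) R) : Matrix B B R :=
  Matrix.of fun i j => ψ ![Pi.single i 1, Pi.single j 1]

theorem bil_expand {R : Type} [CommRing R] {B : Type} [Fintype B] [DecidableEq B]
    (ψ : MultilinearMap R (fun _ : Fin 2 => B → R) R) (v w : B → R) :
    ψ ![v, w] = v ⬝ᵥ (bmt ψ *ᵥ w) := by
  have h1 : (![v, w] : Fin 2 → B → R) =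
      fun k => ∑ i, (![v, w] k i) • (Pi.single i 1 : B → R) := by
    funext k
    refine (funext fun j => ?_)
    rw [Finset.sum_apply, Finset.sum_eq_single j]
    · rw [Pi.smul_apply, Pi.single_eq_same, smul_eq_mul, mul_one]
    · intro i _ hi
      rw [Pi.smul_apply, Pi.single_eq_of_ne (Ne.symm hi), smul_zero]
    · intro h
      exact absurd (Finset.mem_univ j) h
  rw [h1, MultilinearMap.map_sum]
  have h2 : ∀ r : Fin 2 → B, ψ (fun k => ![v, w] k (r k) • (Pi.single (r k) 1 : B → R)) =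
      v (r 0) * (ψ ![Pi.single (r 0) 1, Pi.single (r 1) 1] * w (r 1)) := by
    intro r
    rw [MultilinearMap.map_smul_univ, Fin.prod_univ_two, smul_eq_mul]
    have h3 : (fun k => (Pi.single (r k) 1 : B → R)) =
        ![Pi.single (r 0) 1, Pi.single (r 1) 1] := by
      funext k
      fin_cases k <;> rfl
    rw [h3]
    change v (r 0) * w (r 1) * _ = _
    ring
  rw [Fintype.sum_congr _ _ h2]
  refine (Fintype.sum_equiv (finTwoArrowEquiv B) _
      (fun p : B × B => v p.1 * (ψ ![Pi.single p.1 1, Pi.single p.2 1] * w p.2))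
      (fun r => rfl)).trans ?_
  rw [Fintype.sum_prod_type]
  refine Finset.sum_congr rfl fun i _ => ?_
  change ∑ j, v i * (ψ ![Pi.single i 1, Pi.single j 1] * w j) = v i * (bmt ψ *ᵥ w) i
  rw [← Finset.mul_sum]
  rfl

variable {g : ℕ} {Z : Matrix (Fin g) (Fin g) ℂ}

/-- **Bilinear Hodge forms come from endomorphisms.** -/
theorem bil_endo (hZ : PM Z) {b : MultilinearMap ℚ (fun _ : Fin 2 => (Fin g ⊕ Fin g → ℚ)) ℚ}
    (hb : HodgeMul (perOne Z) b) :
    ∃ Q : Matrix (Fin g ⊕ Fin g) (Fin g ⊕ Fin g) ℚ,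
      (∃ M : Matrix (Fin g) (Fin g) ℂ, ∀ w, perOne Z (Q *ᵥ w) = M *ᵥ (perOne Z w)) ∧
        ∀ v w, b ![v, w] = riem g (Q *ᵥ v) w := by
  obtain ⟨ψ, h1, h2⟩ := hb
  obtain ⟨β, hβ⟩ : ∃ β : MultilinearMap ℝ (fun _ : Fin 2 => (Fin g ⊕ Fin g → ℝ)) ℝ,
      ∀ x y, β ![x, y] = ψ ![perR Z x, perR Z y] := by
    refine ⟨ψ.compLinearMap fun _ => perR Z, fun x y => ?_⟩
    rw [MultilinearMap.compLinearMap_apply]
    congr 1
    funext k
    fin_cases k <;> rfl
  have hβb : bmt β = cK ℝ (bmt b) := by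
    ext i j
    have e1 : ∀ i : Fin g ⊕ Fin g, (Pi.single i 1 : Fin g ⊕ Fin g → ℝ) =
        fun k => (((Pi.single i 1 : Fin g ⊕ Fin g → ℚ) k : ℚ) : ℝ) := by
      intro i
      funext k
      by_cases h : k = i
      · subst h
        rw [Pi.single_eq_same, Pi.single_eq_same, Rat.cast_one]
      · rw [Pi.single_eq_of_ne h, Pi.single_eq_of_ne h, Rat.cast_zero]
    change β ![Pi.single i 1, Pi.single j 1] = ((b ![Pi.single i 1, Pi.single j 1] : ℚ) : ℝ)
    rw [hβ, e1 i, e1 j, ← perOne_eq, ← perOne_eq, ← h1]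
    congr 1
    funext k
    fin_cases k <;> rfl
  have hJ : (JR Z)ᵀ * bmt β * JR Z = bmt β := by
    have h3 : ∀ x y, x ⬝ᵥ (((JR Z)ᵀ * bmt β * JR Z) *ᵥ y) = x ⬝ᵥ (bmt β *ᵥ y) := by
      intro x y
      have h4 := h2 Complex.I Complex.norm_I ![perR Z x, perR Z y]
      have h5 : (fun l => Complex.I • (![perR Z x, perR Z y] : Fin 2 → Fin g → ℂ) l) =
          ![perR Z (JR Z *ᵥ x), perR Z (JR Z *ᵥ y)] := by
        funext k
        fin_cases k
        · exact (perR_JR Z hZ.det x).symm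
        · exact (perR_JR Z hZ.det y).symm
      rw [h5, ← hβ, ← hβ, bil_expand, bil_expand] at h4
      rw [← h4, ← mulVec_mulVec, ← mulVec_mulVec, dotProduct_mulVec, vecMul_transpose]
    ext i j
    have h4 := h3 (Pi.single i 1) (Pi.single j 1)
    rw [mulVec_single_one, mulVec_single_one, single_dotProduct, single_dotProduct, one_mul,
      one_mul] at h4
    exact h4
  have hJ2 : JR Z * JR Z = -1 := JR_sq hZ.det
  have h6 : (JR Z)ᵀ * (bmt β)ᵀ = -((bmt β)ᵀ * JR Z) := by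
    have h7 : (JR Z)ᵀ * bmt β = -(bmt β * JR Z) := by
      have h8 := congrArg (fun X => X * JR Z) hJ
      beta_reduce at h8
      rw [mul_assoc ((JR Z)ᵀ * bmt β), hJ2, mul_neg, mul_one] at h8
      rw [← h8, neg_neg]
    have h8 := congrArg Matrix.transpose h7
    rw [transpose_mul, transpose_transpose, transpose_neg, transpose_mul] at h8
    rw [h8, neg_neg]
  have h9 : JR Z * Om g ℝ = -(Om g ℝ * (JR Z)ᵀ) := by
    have h10 := JR_sp (Z := Z) hZ.symm
    have h11 : Om g ℝ * ((JR Z)ᵀ * Om g ℝ + Om g ℝ * JR Z) * Om g ℝ = 0 := by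
      rw [h10, mul_zero, zero_mul]
    have h12 : Om g ℝ * ((JR Z)ᵀ * Om g ℝ + Om g ℝ * JR Z) * Om g ℝ =
        Om g ℝ * (JR Z)ᵀ * (Om g ℝ * Om g ℝ) + Om g ℝ * Om g ℝ * (JR Z * Om g ℝ) := by
      noncomm_ring
    rw [h12, Om_sq, mul_neg, mul_one, neg_mul, one_mul, ← neg_add, neg_eq_zero] at h11
    rw [eq_neg_iff_add_eq_zero, add_comm]
    exact h11
  let Q : Matrix (Fin g ⊕ Fin g) (Fin g ⊕ Fin g) ℚ := -(Om g ℚ * (bmt b)ᵀ)
  have hQ : cK ℝ Q = -(Om g ℝ * (bmt β)ᵀ) := by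
    rw [hβb, ← Om_map ℝ]
    ext i j
    simp [Q, cK, Matrix.mul_apply]
  have hQJ : cK ℝ Q * JR Z = JR Z * cK ℝ Q := by
    rw [hQ, neg_mul, mul_neg, ← mul_assoc, h9, neg_mul, mul_assoc (Om g ℝ) ((JR Z)ᵀ), h6,
      mul_neg, neg_neg, mul_assoc]
  refine ⟨Q, ?_, fun v w => ?_⟩
  · obtain ⟨P, I, hP, hJ, hI, hI'⟩ := hZ.cht.ex
    obtain ⟨Ψ, hΨ⟩ : ∃ Ψ : (Fin g → ℂ) →ₗ[ℂ] (Fin g → ℂ), ∀ v, Ψ (perOne Z v) =
        perOne Z (Q *ᵥ v) := by
      refine exists_psi hP hJ hI hI' ?_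
      have h13 : rq Q * JR Z = JR Z * rq Q := hQJ
      rw [DJ_eq, mul_smul_comm, smul_mul_assoc, ← mR_rq, ← mR_mul, ← mR_mul, h13]
    refine ⟨LinearMap.toMatrix' Ψ, fun w => ?_⟩
    rw [← hΨ, LinearMap.toMatrix'_mulVec]
  · rw [bil_expand, riem, mulVec_mulVec]
    change _ = w ⬝ᵥ ((Om g ℚ * -(Om g ℚ * (bmt b)ᵀ)) *ᵥ v)
    rw [mul_neg, ← mul_assoc, Om_sq, neg_mul, one_mul, neg_neg, mulVec_transpose,
      dotProduct_mulVec, dotProduct_comm]

/-- **Hodge tensors are combinations of products of forms `E (a x, y)`.** -/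
theorem hodge_prod (M : Pol Z) (c1 : M.Cop) (c2 : M.Sep) (c3 : M.Nd) {m : ℕ}
    (f : MultilinearMap ℚ (fun _ : Fin m × Fin 2 => (Fin g ⊕ Fin g → ℚ)) ℚ)
    (hf : HodgeMul (perOne Z) f) :
    ∃ (J : Type) (_ : Fintype J) (c : J → ℚ)
      (a : J → Fin m → Matrix (Fin g ⊕ Fin g) (Fin g ⊕ Fin g) ℚ)
      (σ : J → Equiv.Perm (Fin m × Fin 2)),
      (∀ j l, ∃ M : Matrix (Fin g) (Fin g) ℂ, ∀ w,
        perOne Z (a j l *ᵥ w) = M *ᵥ (perOne Z w)) ∧
        ∀ v, f v = ∑ j, c j * ∏ l, riem g (a j l *ᵥ v (σ j (l, 0))) (v (σ j (l, 1))) := by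
  classical
  let e : Fin m × Fin 2 ≃ Fin (Fintype.card (Fin m × Fin 2)) := Fintype.equivFin _
  obtain ⟨k, hk⟩ : ∃ k, k = Fintype.card (Fin m × Fin 2) := ⟨_, rfl⟩
  rw [← hk] at e
  let G : MultilinearMap ℚ (fun _ : Fin m × Fin 2 => (Fin k → Fin g ⊕ Fin g → ℚ)) ℚ :=
    f.compLinearMap fun x => LinearMap.proj (e x)
  have hG : ∀ w, G w = f (fun x => w x (e x)) := fun w => rfl
  have hGH : HodgeMul (perPow Z k) G := by
    obtain ⟨ψ, h1, h2⟩ := hf
    refine ⟨ψ.compLinearMap fun x => LinearMap.proj (e x), fun v => ?_, fun z hz u => ?_⟩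
    · rw [MultilinearMap.compLinearMap_apply, hG]
      exact h1 (fun x => v x (e x))
    · rw [MultilinearMap.compLinearMap_apply, MultilinearMap.compLinearMap_apply]
      exact h2 z hz (fun x => u x (e x))
  have hdiv := M.divisorial_all c1 c2 c3 _ hGH.alternatization
  rw [divisorial] at hdiv
  obtain ⟨N, c, t, ht⟩ := Submodule.mem_span_set'.1 hdiv
  choose B hB hBt using fun i => (t i).2
  -- the bilinear forms
  have key : ∀ (i : Fin N) (σ : Equiv.Perm (Fin m × Fin 2)) (l : Fin m),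
      ∃ Q : Matrix (Fin g ⊕ Fin g) (Fin g ⊕ Fin g) ℚ,
        (∃ M : Matrix (Fin g) (Fin g) ℂ, ∀ w, perOne Z (Q *ᵥ w) = M *ᵥ (perOne Z w)) ∧
          ∀ v w, B i l ![Pi.single (e (σ (l, 0))) v, Pi.single (e (σ (l, 1))) w] =
            riem g (Q *ᵥ v) w := by
    intro i σ l
    obtain ⟨ψ, h1, h2⟩ := hB i l
    let r : Fin 2 → Fin k := ![e (σ (l, 0)), e (σ (l, 1))]
    let b : MultilinearMap ℚ (fun _ : Fin 2 => (Fin g ⊕ Fin g → ℚ)) ℚ :=
      (B i l).toMultilinearMap.compLinearMap fun x =>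
        LinearMap.single ℚ (fun _ : Fin k => Fin g ⊕ Fin g → ℚ) (r x)
    have hb : ∀ u, b u = B i l (fun x => Pi.single (r x) (u x)) := fun u => rfl
    have hbH : HodgeMul (perOne Z) b := by
      refine ⟨ψ.compLinearMap fun x =>
        LinearMap.single ℝ (fun _ : Fin k => Fin g → ℂ) (r x), fun v => ?_, fun z hz u => ?_⟩
      · rw [MultilinearMap.compLinearMap_apply, hb, ← h1]
        congr 1
        funext x i
        change (Pi.single (r x) (perOne Z (v x)) : Fin k → Fin g → ℂ) i =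
          perOne Z ((Pi.single (r x) (v x) : Fin k → Fin g ⊕ Fin g → ℚ) i)
        by_cases hi : i = r x
        · subst hi
          rw [Pi.single_eq_same, Pi.single_eq_same]
        · rw [Pi.single_eq_of_ne hi, Pi.single_eq_of_ne hi, map_zero]
      · rw [MultilinearMap.compLinearMap_apply, MultilinearMap.compLinearMap_apply]
        have h3 : (fun x => (LinearMap.single ℝ (fun _ : Fin k => Fin g → ℂ) (r x)) (z • u x)) =
            fun x => z • (LinearMap.single ℝ (fun _ : Fin k => Fin g → ℂ) (r x)) (u x) := by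
          funext x
          change (Pi.single (r x) (z • u x) : Fin k → Fin g → ℂ) = z • Pi.single (r x) (u x)
          rw [← Pi.single_smul]
        rw [h3]
        exact h2 z hz _
    obtain ⟨Q, hQ1, hQ2⟩ := bil_endo ⟨M.symm, M.pos⟩ hbH
    refine ⟨Q, hQ1, fun v w => ?_⟩
    rw [← hQ2, hb]
    congr 1
    funext x
    fin_cases x <;> rfl
  choose Q hQ1 hQ2 using key
  refine ⟨Fin N × Equiv.Perm (Fin m × Fin 2), inferInstance,
    fun j => c j.1 * ((Equiv.Perm.sign j.2 : ℤ) : ℚ), fun j l => Q j.1 j.2 l, fun j => j.2,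
    fun j l => hQ1 _ _ _, fun v => ?_⟩
  have h1 : MultilinearMap.alternatization G (fun x => Pi.single (e x) (v x)) = f v := by
    rw [MultilinearMap.alternatization_apply, Finset.sum_eq_single 1]
    · rw [Equiv.Perm.sign_one, one_smul]
      change G (fun x => Pi.single (e x) (v x)) = f v
      rw [hG]
      congr 1
      funext x
      rw [Pi.single_eq_same]
    · intro σ _ hσ
      obtain ⟨x, hx⟩ : ∃ x, σ x ≠ x := by
        by_contra hcon
        push Not at hcon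
        exact hσ (Equiv.ext hcon)
      have h2 : G (fun y => Pi.single (e (σ y)) (v (σ y))) = 0 := by
        rw [hG]
        refine f.map_coord_zero x ?_
        exact Pi.single_eq_of_ne (fun h => hx (e.injective h).symm) _
      change Equiv.Perm.sign σ • G (fun y => Pi.single (e (σ y)) (v (σ y))) = 0
      rw [h2, smul_zero]
    · intro h
      exact absurd (Finset.mem_univ _) h
  have h3 : (∑ i, c i • ((t i : _) : (Fin k → Fin g ⊕ Fin g → ℚ) [⋀^Fin m × Fin 2]→ₗ[ℚ] ℚ))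
      (fun x => Pi.single (e x) (v x)) =
      ∑ i, (c i • ((t i : _) : (Fin k → Fin g ⊕ Fin g → ℚ) [⋀^Fin m × Fin 2]→ₗ[ℚ] ℚ))
        (fun x => Pi.single (e x) (v x)) := by
    induction (Finset.univ : Finset (Fin N)) using Finset.induction_on with
    | empty => rfl
    | insert a s ha ih =>
      rw [Finset.sum_insert ha, Finset.sum_insert ha, AlternatingMap.add_apply, ih]
  rw [← h1, ← ht, h3, Fintype.sum_prod_type]
  refine Finset.sum_congr rfl fun i _ => ?_
  rw [AlternatingMap.smul_apply, hBt, smul_eq_mul, Finset.mul_sum]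
  refine Finset.sum_congr rfl fun σ _ => ?_
  rw [mul_assoc]
  congr 2
  refine Finset.prod_congr rfl fun l _ => ?_
  exact hQ2 i σ l _ _

end Pool.Agent.H943.KT
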