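import Mathlib
import Pool.Agent.H943.KT.Mul

/-!
# Tate tensors and the group of similitudes commuting with the endomorphisms
-/

set_option autoImplicit false
set_option linter.unusedSectionVars false

namespace Pool.Agent.H943.KT

open Matrix Module Pool.Agent.W437.HC Pool.Agent.W437.HD Pool.Agent.Y90 TensorProduct
open Pool.Agent.Y224.TS
open Pool.Agent.Y224.TS.St (IsHodgeTate IsTateModule)
open Pool.Agent.H204R3.CM (HodgeMul IsHodge)
open Pool.Agent.Y4.K (Pr Pol Eqv mu pr qr)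
open Pool.Agent.W437.HP (cK cK_mul cK_one)

section general

variable {K : Type} [Field K] {V : Type} [AddCommGroup V] [Module K V]

theorem pm_aux {n : ℕ} (β : Fin n → V →ₗ[K] V →ₗ[K] K) (v : Fin n × Fin 2 → V) (l : Fin n)
    (i : Fin 2) (c : V) [DecidableEq (Fin n × Fin 2)] :
    ∏ k, β k (Function.update v (l, i) c (k, 0)) (Function.update v (l, i) c (k, 1)) =
      β l (Function.update v (l, i) c (l, 0)) (Function.update v (l, i) c (l, 1)) *
        ∏ k ∈ Finset.univ.erase l, β k (v (k, 0)) (v (k, 1)) := by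
  rw [← Finset.mul_prod_erase Finset.univ _ (Finset.mem_univ l)]
  congr 1
  refine Finset.prod_congr rfl fun k hk => ?_
  have hk' : k ≠ l := Finset.ne_of_mem_erase hk
  rw [Function.update_of_ne (fun h => hk' (congrArg Prod.fst h)),
    Function.update_of_ne (fun h => hk' (congrArg Prod.fst h))]

/-- The product of bilinear forms. -/
def pm {n : ℕ} (β : Fin n → V →ₗ[K] V →ₗ[K] K) :
    MultilinearMap K (fun _ : Fin n × Fin 2 => V) K where
  toFun v := ∏ l, β l (v (l, 0)) (v (l, 1))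
  map_update_add' := by
    rintro _ v ⟨l, i⟩ a b
    rw [pm_aux, pm_aux, pm_aux, ← add_mul]
    congr 1
    have h01 : ((l, (0 : Fin 2)) : Fin n × Fin 2) ≠ (l, 1) := by simp
    fin_cases i
    · change β l (Function.update v (l, 0) (a + b) (l, 0))
        (Function.update v (l, 0) (a + b) (l, 1)) =
        β l (Function.update v (l, 0) a (l, 0)) (Function.update v (l, 0) a (l, 1)) +
        β l (Function.update v (l, 0) b (l, 0)) (Function.update v (l, 0) b (l, 1))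
      rw [Function.update_self, Function.update_self, Function.update_self,
        Function.update_of_ne h01.symm, Function.update_of_ne h01.symm,
        Function.update_of_ne h01.symm, map_add, LinearMap.add_apply]
    · change β l (Function.update v (l, 1) (a + b) (l, 0))
        (Function.update v (l, 1) (a + b) (l, 1)) =
        β l (Function.update v (l, 1) a (l, 0)) (Function.update v (l, 1) a (l, 1)) +
        β l (Function.update v (l, 1) b (l, 0)) (Function.update v (l, 1) b (l, 1))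
      rw [Function.update_self, Function.update_self, Function.update_self,
        Function.update_of_ne h01, Function.update_of_ne h01,
        Function.update_of_ne h01, map_add]
  map_update_smul' := by
    rintro _ v ⟨l, i⟩ r a
    rw [pm_aux, pm_aux, smul_eq_mul, ← mul_assoc]
    congr 1
    have h01 : ((l, (0 : Fin 2)) : Fin n × Fin 2) ≠ (l, 1) := by simp
    fin_cases i
    · change β l (Function.update v (l, 0) (r • a) (l, 0))
        (Function.update v (l, 0) (r • a) (l, 1)) =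
        r * β l (Function.update v (l, 0) a (l, 0)) (Function.update v (l, 0) a (l, 1))
      rw [Function.update_self, Function.update_self,
        Function.update_of_ne h01.symm, Function.update_of_ne h01.symm,
        map_smul, LinearMap.smul_apply, smul_eq_mul]
    · change β l (Function.update v (l, 1) (r • a) (l, 0))
        (Function.update v (l, 1) (r • a) (l, 1)) =
        r * β l (Function.update v (l, 1) a (l, 0)) (Function.update v (l, 1) a (l, 1))
      rw [Function.update_self, Function.update_self,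
        Function.update_of_ne h01, Function.update_of_ne h01,
        map_smul, smul_eq_mul]

theorem pm_apply {n : ℕ} (β : Fin n → V →ₗ[K] V →ₗ[K] K) (v : Fin n × Fin 2 → V) :
    pm β v = ∏ l, β l (v (l, 0)) (v (l, 1)) := rfl

end general

variable {g : ℕ} {Z : Matrix (Fin g) (Fin g) ℂ} {K : Type} [Field K] [CharZero K]
  {Γ : Type} [Group Γ] {ρ : Representation K Γ (K ⊗[ℚ] (Fin g ⊕ Fin g → ℚ))} {χ : Γ →* K}

/-- the basis of the Tate module -/
noncomputable def bV (K : Type) [Field K] [CharZero K] (g : ℕ) :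
    Basis (Fin g ⊕ Fin g) K (K ⊗[ℚ] (Fin g ⊕ Fin g → ℚ)) :=
  Algebra.TensorProduct.basis K (Pi.basisFun ℚ (Fin g ⊕ Fin g))

theorem bV_apply (i : Fin g ⊕ Fin g) : bV K g i = (1 : K) ⊗ₜ[ℚ] Pi.single i 1 := by
  rw [bV, Algebra.TensorProduct.basis_apply, Pi.basisFun_apply]

/-- multilinear maps are determined by their values at the rational vectors -/
theorem ext_pure {κ : Type} [Finite κ]
    {φ ψ : MultilinearMap K (fun _ : κ => K ⊗[ℚ] (Fin g ⊕ Fin g → ℚ)) K}
    (h : ∀ v : κ → (Fin g ⊕ Fin g → ℚ), φ (fun k => (1 : K) ⊗ₜ[ℚ] v k) =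
      ψ (fun k => (1 : K) ⊗ₜ[ℚ] v k)) : φ = ψ := by
  refine Basis.ext_multilinear (fun _ => bV K g) fun v => ?_
  have h1 := h fun k => Pi.single (v k) 1
  have h2 : (fun k => bV K g (v k)) =
      fun k => (1 : K) ⊗ₜ[ℚ] (Pi.single (v k) 1 : Fin g ⊕ Fin g → ℚ) :=
    funext fun k => bV_apply (v k)
  rw [h2]
  exact h1

/-- the action of a rational matrix on the Tate module -/
noncomputable def bc (K : Type) [Field K] [CharZero K]
    (Q : Matrix (Fin g ⊕ Fin g) (Fin g ⊕ Fin g) ℚ) :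
    K ⊗[ℚ] (Fin g ⊕ Fin g → ℚ) →ₗ[K] K ⊗[ℚ] (Fin g ⊕ Fin g → ℚ) :=
  (Matrix.mulVecLin Q).baseChange K

theorem bc_one (v : K ⊗[ℚ] (Fin g ⊕ Fin g → ℚ)) : bc K 1 v = v := by
  rw [bc, Matrix.mulVecLin_one, LinearMap.baseChange_id, LinearMap.id_apply]

/-- The form on the Tate module is nondegenerate. -/
theorem om_nondeg {ω : (K ⊗[ℚ] (Fin g ⊕ Fin g → ℚ)) →ₗ[K]
    (K ⊗[ℚ] (Fin g ⊕ Fin g → ℚ)) →ₗ[K] K}
    (hω : ∀ u v : Fin g ⊕ Fin g → ℚ, ω (1 ⊗ₜ u) (1 ⊗ₜ v) = ((riem g u v : ℚ) : K))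
    {u : K ⊗[ℚ] (Fin g ⊕ Fin g → ℚ)} (hu : ∀ w, ω u w = 0) : u = 0 := by
  let r := (bV K g).repr u
  have h1 : ∀ j, ∑ i, r i * ((Om g ℚ j i : ℚ) : K) = 0 := by
    intro j
    have h2 := hu (bV K g j)
    rw [← (bV K g).sum_repr u, map_sum, LinearMap.sum_apply] at h2
    rw [← h2]
    refine Finset.sum_congr rfl fun i _ => ?_
    rw [map_smul, LinearMap.smul_apply, smul_eq_mul, bV_apply, bV_apply, hω, riem,
      mulVec_single_one, single_dotProduct, one_mul]
    rfl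
  have h2 : cK K (Om g ℚ) *ᵥ (fun i => r i) = 0 := by
    funext j
    rw [mulVec, dotProduct, Pi.zero_apply, ← h1 j]
    refine Finset.sum_congr rfl fun i _ => ?_
    rw [mul_comm]
    rfl
  have h3 : (cK K (Om g ℚ) * cK K (Om g ℚ)) *ᵥ (fun i => r i) = 0 := by
    rw [← mulVec_mulVec, h2, mulVec_zero]
  have h4 : cK K (Om g ℚ) * cK K (Om g ℚ) = -1 := by
    have h5 : cK K (Om g ℚ) = Om g K := Om_map K
    rw [h5, Om_sq]
  rw [h4, neg_mulVec, one_mulVec, neg_eq_zero] at h3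
  rw [← (bV K g).sum_repr u]
  exact Finset.sum_eq_zero fun i _ => by
    have h5 := congrFun h3 i
    change (bV K g).repr u i = 0 at h5
    rw [h5, zero_smul]

/-- The rational matrix `Q` is an endomorphism of the abelian variety. -/
def Endo (Z : Matrix (Fin g) (Fin g) ℂ) (Q : Matrix (Fin g ⊕ Fin g) (Fin g ⊕ Fin g) ℚ) : Prop :=
  ∃ M : Matrix (Fin g) (Fin g) ℂ, ∀ w : Fin g ⊕ Fin g → ℚ, perOne Z (Q.mulVec w) =
    M.mulVec (perOne Z w)

/-- `φ` extends the product of the forms `E (a x, y)`. -/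
def IsProd (Z : Matrix (Fin g) (Fin g) ℂ) {n : ℕ}
    (φ : MultilinearMap K (fun _ : Fin n × Fin 2 => K ⊗[ℚ] (Fin g ⊕ Fin g → ℚ)) K) : Prop :=
  ∃ (a : Fin n → Matrix (Fin g ⊕ Fin g) (Fin g ⊕ Fin g) ℚ) (σ : Equiv.Perm (Fin n × Fin 2)),
    (∀ l, Endo Z (a l)) ∧ ∀ v : Fin n × Fin 2 → (Fin g ⊕ Fin g → ℚ),
      φ (fun x => (1 : K) ⊗ₜ[ℚ] v x) =
        ((∏ l, riem g (a l *ᵥ v (σ (l, 0))) (v (σ (l, 1))) : ℚ) : K)

/-- the formula for all vectors -/
theorem prod_formula {ω : (K ⊗[ℚ] (Fin g ⊕ Fin g → ℚ)) →ₗ[K]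
    (K ⊗[ℚ] (Fin g ⊕ Fin g → ℚ)) →ₗ[K] K}
    (hω : ∀ u v : Fin g ⊕ Fin g → ℚ, ω (1 ⊗ₜ u) (1 ⊗ₜ v) = ((riem g u v : ℚ) : K))
    {n : ℕ} {φ : MultilinearMap K (fun _ : Fin n × Fin 2 => K ⊗[ℚ] (Fin g ⊕ Fin g → ℚ)) K}
    {a : Fin n → Matrix (Fin g ⊕ Fin g) (Fin g ⊕ Fin g) ℚ} {σ : Equiv.Perm (Fin n × Fin 2)}
    (h : ∀ v : Fin n × Fin 2 → (Fin g ⊕ Fin g → ℚ), φ (fun x => (1 : K) ⊗ₜ[ℚ] v x) =
        ((∏ l, riem g (a l *ᵥ v (σ (l, 0))) (v (σ (l, 1))) : ℚ) : K))
    (v : Fin n × Fin 2 → K ⊗[ℚ] (Fin g ⊕ Fin g → ℚ)) :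
    φ v = ∏ l, ω (bc K (a l) (v (σ (l, 0)))) (v (σ (l, 1))) := by
  have h1 : φ = (pm fun l => ω ∘ₗ bc K (a l)).domDomCongr σ := by
    refine ext_pure fun u => ?_
    rw [h, MultilinearMap.domDomCongr_apply, pm_apply, Rat.cast_prod]
    refine Finset.prod_congr rfl fun l _ => ?_
    rw [LinearMap.comp_apply, bc, LinearMap.baseChange_tmul, hω, mulVecLin_apply]
  rw [h1, MultilinearMap.domDomCongr_apply, pm_apply]
  rfl

variable [Algebra K ℂ]

/-- **Tate tensors are the combinations of the products of forms `E (a x, y)`.** -/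
theorem tate_iff [Algebra.IsAlgebraic K ℂ] (M : Pol Z) (c1 : M.Cop) (c2 : M.Sep) (c3 : M.Nd)
    (hρ : IsTateModule (perOne Z) (riem g) ρ χ) {n : ℕ}
    (φ : MultilinearMap K (fun _ : Fin n × Fin 2 => K ⊗[ℚ] (Fin g ⊕ Fin g → ℚ)) K) :
    (∃ Δ : Subgroup Γ, Δ.FiniteIndex ∧ ∀ s ∈ Δ,
      ∀ v : Fin n × Fin 2 → K ⊗[ℚ] (Fin g ⊕ Fin g → ℚ),
        φ (fun x => ρ s (v x)) = χ s ^ n * φ v) ↔
      φ ∈ Submodule.span K {ψ | IsProd Z ψ} := by
  classical
  constructor
  · intro hφ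
    obtain ⟨N, c, f, hf, hφf⟩ := tate_hodge ⟨M.symm, M.pos⟩ M c1 c2 hρ (by
      rw [Nat.card_eq_fintype_card, Fintype.card_prod, Fintype.card_fin, Fintype.card_fin,
        mul_comm]) φ hφ
    choose J hJ c' a σ ha hf' using fun j => hodge_prod M c1 c2 c3 (f j) (hf j)
    let t : ∀ j, J j → MultilinearMap K
        (fun _ : Fin n × Fin 2 => K ⊗[ℚ] (Fin g ⊕ Fin g → ℚ)) K := fun j i =>
      (pm fun l => hρ.weil.choose ∘ₗ bc K (a j i l)).domDomCongr (σ j i)
    have ht : ∀ j i (v : Fin n × Fin 2 → (Fin g ⊕ Fin g → ℚ)),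
        t j i (fun x => (1 : K) ⊗ₜ[ℚ] v x) =
          ((∏ l, riem g (a j i l *ᵥ v (σ j i (l, 0))) (v (σ j i (l, 1))) : ℚ) : K) := by
      intro j i v
      change (pm _).domDomCongr _ _ = _
      rw [MultilinearMap.domDomCongr_apply, pm_apply, Rat.cast_prod]
      refine Finset.prod_congr rfl fun l _ => ?_
      rw [LinearMap.comp_apply, bc, LinearMap.baseChange_tmul, hρ.weil.choose_spec.1,
        mulVecLin_apply]
    have h1 : φ = ∑ j, ∑ i, (c j * ((c' j i : ℚ) : K)) • t j i := by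
      refine ext_pure fun v => ?_
      rw [hφf, MultilinearMap.sum_apply]
      refine Finset.sum_congr rfl fun j _ => ?_
      rw [MultilinearMap.sum_apply, hf', Rat.cast_sum, Finset.mul_sum]
      refine Finset.sum_congr rfl fun i _ => ?_
      rw [MultilinearMap.smul_apply, ht, smul_eq_mul, Rat.cast_mul, mul_assoc]
    rw [h1]
    exact Submodule.sum_mem _ fun j _ => Submodule.sum_mem _ fun i _ =>
      Submodule.smul_mem _ _ (Submodule.subset_span ⟨a j i, σ j i, ha j i, ht j i⟩)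
  · intro hφ
    obtain ⟨ω, hω, hωρ⟩ := hρ.weil
    induction hφ using Submodule.span_induction with
    | mem ψ hψ =>
      obtain ⟨a, σ, ha, h⟩ := hψ
      have h1 : ∀ l, ∃ Δ : Subgroup Γ, Δ.FiniteIndex ∧ ∀ s ∈ Δ, ∀ v,
          ρ s (bc K (a l) v) = bc K (a l) (ρ s v) := by
        intro l
        refine hρ.endo (mulVecLin (a l)) ?_
        obtain ⟨Mt, hM⟩ := ha l
        refine ⟨mulVecLin Mt, fun v => ?_⟩
        rw [mulVecLin_apply, mulVecLin_apply, hM]
      choose Δ hΔ hs using h1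
      refine ⟨⨅ l, Δ l, Subgroup.finiteIndex_iInf fun l => hΔ l, fun s hs' v => ?_⟩
      rw [prod_formula hω h, prod_formula hω h]
      have h2 : ∀ l, ω (bc K (a l) (ρ s (v (σ (l, 0))))) (ρ s (v (σ (l, 1)))) =
          χ s * ω (bc K (a l) (v (σ (l, 0)))) (v (σ (l, 1))) := by
        intro l
        rw [← hs l s ((Subgroup.mem_iInf.1 hs') l), hωρ]
      rw [Finset.prod_congr rfl fun l _ => h2 l, Finset.prod_mul_distrib, Finset.prod_const,
        Finset.card_univ, Fintype.card_fin]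
    | zero => exact ⟨⊤, inferInstance, fun s _ v => by simp⟩
    | add x y _ _ hx hy =>
      obtain ⟨Δ, hΔ, h⟩ := hx
      obtain ⟨Δ', hΔ', h'⟩ := hy
      refine ⟨Δ ⊓ Δ', inferInstance, fun s hs v => ?_⟩
      rw [MultilinearMap.add_apply, MultilinearMap.add_apply, h s hs.1, h' s hs.2, mul_add]
    | smul r x _ hx =>
      obtain ⟨Δ, hΔ, h⟩ := hx
      refine ⟨Δ, hΔ, fun s hs v => ?_⟩
      rw [MultilinearMap.smul_apply, MultilinearMap.smul_apply, h s hs, smul_eq_mul, smul_eq_mul,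
        mul_left_comm]

/-- **The group of the Tate tensors** is the group of the similitudes which commute with the
endomorphisms. -/
theorem grp_iff [Algebra.IsAlgebraic K ℂ] (M : Pol Z) (c1 : M.Cop) (c2 : M.Sep) (c3 : M.Nd)
    (hρ : IsTateModule (perOne Z) (riem g) ρ χ)
    {ω : (K ⊗[ℚ] (Fin g ⊕ Fin g → ℚ)) →ₗ[K] (K ⊗[ℚ] (Fin g ⊕ Fin g → ℚ)) →ₗ[K] K}
    (hω : ∀ u v : Fin g ⊕ Fin g → ℚ, ω (1 ⊗ₜ u) (1 ⊗ₜ v) = ((riem g u v : ℚ) : K))
    (x : (K ⊗[ℚ] (Fin g ⊕ Fin g → ℚ)) ≃ₗ[K] (K ⊗[ℚ] (Fin g ⊕ Fin g → ℚ))) (c : K) :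
    (∀ (n : ℕ) (φ : MultilinearMap K
        (fun _ : Fin n × Fin 2 => K ⊗[ℚ] (Fin g ⊕ Fin g → ℚ)) K),
      (∃ Δ : Subgroup Γ, Δ.FiniteIndex ∧ ∀ s ∈ Δ,
        ∀ v : Fin n × Fin 2 → K ⊗[ℚ] (Fin g ⊕ Fin g → ℚ),
          φ (fun x => ρ s (v x)) = χ s ^ n * φ v) →
        ∀ v, φ (fun y => x (v y)) = c ^ n * φ v) ↔
      (∀ v w, ω (x v) (x w) = c * ω v w) ∧ ∀ Q : Matrix (Fin g ⊕ Fin g) (Fin g ⊕ Fin g) ℚ,
        Endo Z Q → ∀ v, x (bc K Q v) = bc K Q (x v) := by
  constructor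
  · intro h
    have key : ∀ Q : Matrix (Fin g ⊕ Fin g) (Fin g ⊕ Fin g) ℚ, Endo Z Q → ∀ v w,
        ω (bc K Q (x v)) (x w) = c * ω (bc K Q v) w := by
      intro Q hQ v w
      have h1 : ∀ u : Fin 1 × Fin 2 → K ⊗[ℚ] (Fin g ⊕ Fin g → ℚ),
          pm (fun _ : Fin 1 => ω ∘ₗ bc K Q) u = ω (bc K Q (u (0, 0))) (u (0, 1)) := by
        intro u
        rw [pm_apply, Fin.prod_univ_one]
        rfl
      have h2 := h 1 (pm fun _ : Fin 1 => ω ∘ₗ bc K Q) ((tate_iff M c1 c2 c3 hρ _).2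
        (Submodule.subset_span ⟨fun _ => Q, Equiv.refl _, fun _ => hQ, fun u => by
          rw [h1, Fin.prod_univ_one, bc, LinearMap.baseChange_tmul, hω, mulVecLin_apply]
          rfl⟩)) (fun y => if y.2 = 0 then v else w)
      rw [h1, h1, pow_one] at h2
      exact h2
    have h1 : ∀ v w, ω (x v) (x w) = c * ω v w := by
      intro v w
      have h2 := key 1 ⟨1, fun w => by rw [one_mulVec, one_mulVec]⟩ v w
      rw [bc_one, bc_one] at h2
      exact h2
    refine ⟨h1, fun Q hQ v => ?_⟩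
    rw [← sub_eq_zero]
    refine om_nondeg hω fun w => ?_
    obtain ⟨w', rfl⟩ := x.surjective w
    rw [map_sub, LinearMap.sub_apply, h1, key Q hQ, sub_self]
  · rintro ⟨h1, h2⟩ n φ hφ v
    have hφ' := (tate_iff M c1 c2 c3 hρ φ).1 hφ
    clear hφ
    induction hφ' using Submodule.span_induction with
    | mem ψ hψ =>
      obtain ⟨a, σ, ha, h⟩ := hψ
      rw [prod_formula hω h, prod_formula hω h]
      have h3 : ∀ l, ω (bc K (a l) (x (v (σ (l, 0))))) (x (v (σ (l, 1)))) =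
          c * ω (bc K (a l) (v (σ (l, 0)))) (v (σ (l, 1))) := by
        intro l
        rw [← h2 _ (ha l), h1]
      rw [Finset.prod_congr rfl fun l _ => h3 l, Finset.prod_mul_distrib, Finset.prod_const,
        Finset.card_univ, Fintype.card_fin]
    | zero => simp
    | add s t _ _ hx hy => rw [MultilinearMap.add_apply, MultilinearMap.add_apply, hx, hy, mul_add]
    | smul r s _ hx =>
      rw [MultilinearMap.smul_apply, MultilinearMap.smul_apply, hx, smul_eq_mul, smul_eq_mul,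
        mul_left_comm]

end Pool.Agent.H943.KT
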