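import Mathlib
import Pool.Agent.H943.KT.Grp
import Pool.Graph.R_pool_sql_team_seeded_1acbe0a2.Y91.L.Grp

/-!
# Galois special points
-/

set_option autoImplicit false
set_option linter.unusedSectionVars false

namespace Pool.Agent.H943.KT

open Matrix Module Pool.Agent.W437.HC Pool.Agent.W437.HD Pool.Agent.Y90 TensorProduct
open Pool.Agent.Y224.TS
open Pool.Agent.Y224.TS.St (IsHodgeTate IsTateModule)
open Pool.Agent.H204R3.CM (HodgeMul IsHodge)
open Pool.Agent.Y4.K (Pr Pol Eqv mu pr qr)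
open Pool.Agent.Y130.GS (monodromy TensorSemisimple Subvariety IsGaloisSpecial IsTateForm monodromy_le
  monodromy_ge evalAt)
open Pool.Agent.Y91.L (HasHomotheties)

section general

variable {K : Type} [Field K] {M : Type} [AddCommGroup M] [Module K M] [FiniteDimensional K M]
  {Γ : Type} [Group Γ]

/-- Linear functions are polynomials. -/
theorem lin_poly (lam : (M →ₗ[K] M) →ₗ[K] K) :
    ∃ P : MvPolynomial (Fin (finrank K M) × Fin (finrank K M)) K, ∀ f, evalAt P f = lam f := by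
  classical
  let b := finBasis K M
  let E : Fin (finrank K M) × Fin (finrank K M) → (M →ₗ[K] M) := fun i =>
    (b.coord i.2).smulRight (b i.1)
  refine ⟨∑ i, MvPolynomial.C (lam (E i)) * MvPolynomial.X i, fun f => ?_⟩
  have h1 : f = ∑ i : Fin (finrank K M) × Fin (finrank K M), (b.repr (f (b i.2)) i.1) • E i := by
    refine b.ext fun j => ?_
    rw [LinearMap.sum_apply, Fintype.sum_prod_type, Finset.sum_comm, Finset.sum_eq_single j]
    · have h2 : ∀ i, ((b.repr (f (b j)) i) • E (i, j)) (b j) = (b.repr (f (b j)) i) • b i := by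
        intro i
        rw [LinearMap.smul_apply, LinearMap.smulRight_apply, Basis.coord_apply, Basis.repr_self,
          Finsupp.single_eq_same, one_smul]
      rw [Finset.sum_congr rfl fun i _ => h2 i, b.sum_repr]
    · intro j' _ hj
      refine Finset.sum_eq_zero fun i _ => ?_
      rw [LinearMap.smul_apply, LinearMap.smulRight_apply, Basis.coord_apply, Basis.repr_self,
        Finsupp.single_eq_of_ne hj, zero_smul, smul_zero]
    · intro h
      exact absurd (Finset.mem_univ j) h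
  have h3 : evalAt (∑ i, MvPolynomial.C (lam (E i)) * MvPolynomial.X i) f =
      ∑ i, lam (E i) * b.repr (f (b i.2)) i.1 := by
    unfold evalAt
    rw [map_sum]
    refine Finset.sum_congr rfl fun i _ => ?_
    rw [map_mul, MvPolynomial.eval_C, MvPolynomial.eval_X]
  rw [h3]
  conv_rhs => rw [h1]
  rw [map_sum]
  refine Finset.sum_congr rfl fun i _ => ?_
  rw [map_smul, smul_eq_mul, mul_comm]

/-- Linear relations on a subgroup of finite index hold on the monodromy group. -/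
theorem lin_mono {τ : Representation K Γ M} {x : M ≃ₗ[K] M} (hx : x ∈ monodromy τ)
    {Δ : Subgroup Γ} (hΔ : Δ.FiniteIndex) (T T' : (M →ₗ[K] M) →ₗ[K] (M →ₗ[K] M))
    (h : ∀ s ∈ Δ, T (τ s) = T' (τ s)) : T (x : M →ₗ[K] M) = T' (x : M →ₗ[K] M) := by
  refine LinearMap.ext fun v => ?_
  rw [← sub_eq_zero, ← Module.forall_dual_apply_eq_zero_iff K]
  intro φ
  obtain ⟨P, hP⟩ := lin_poly (M := M) (φ ∘ₗ LinearMap.applyₗ v ∘ₗ T - φ ∘ₗ LinearMap.applyₗ v ∘ₗ T')
  have h1 := hx Δ hΔ P fun s hs => by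
    rw [hP]
    change φ (T (τ s) v) - φ (T' (τ s) v) = 0
    rw [h s hs, sub_self]
  rw [hP] at h1
  rw [map_sub]
  exact h1

/-- The automorphism `τ s`. -/
noncomputable def eqv (τ : Representation K Γ M) (s : Γ) : M ≃ₗ[K] M :=
  LinearEquiv.ofLinearMap (τ s) (τ s⁻¹) (by
    rw [← Module.End.mul_eq_comp, ← map_mul, mul_inv_cancel, map_one]
    rfl) (by
    rw [← Module.End.mul_eq_comp, ← map_mul, inv_mul_cancel, map_one]
    rfl)

theorem eqv_coe (τ : Representation K Γ M) (s : Γ) : (eqv τ s : M →ₗ[K] M) = τ s := rfl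

/-- **A subgroup of finite index is mapped into the monodromy group.** -/
theorem exists_mono (τ : Representation K Γ M) :
    ∃ Δ : Subgroup Γ, Δ.FiniteIndex ∧ ∀ s ∈ Δ, eqv τ s ∈ monodromy τ := by
  classical
  let I : Subgroup Γ → Ideal (MvPolynomial (Fin (finrank K M) × Fin (finrank K M)) K) := fun Δ =>
    { carrier := {P | ∀ s ∈ Δ, evalAt P (τ s) = 0}
      add_mem' := fun {a b} ha hb s hs => by
        have h1 : evalAt (a + b) (τ s) = evalAt a (τ s) + evalAt b (τ s) := map_add _ _ _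
        rw [h1, ha s hs, hb s hs, add_zero]
      zero_mem' := fun s _ => map_zero _
      smul_mem' := fun c a ha s hs => by
        have h1 : evalAt (c • a) (τ s) = evalAt c (τ s) * evalAt a (τ s) := map_mul _ _ _
        rw [h1, ha s hs, mul_zero] }
  obtain ⟨J, ⟨Δ₁, hΔ₁, rfl⟩, hmax⟩ := set_has_maximal_iff_noetherian.2
    (inferInstance : IsNoetherian (MvPolynomial (Fin (finrank K M) × Fin (finrank K M)) K)
      (MvPolynomial (Fin (finrank K M) × Fin (finrank K M)) K))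
    {J | ∃ Δ : Subgroup Γ, Δ.FiniteIndex ∧ I Δ = J} ⟨_, ⊤, inferInstance, rfl⟩
  refine ⟨Δ₁, hΔ₁, fun s hs Δ hΔ P hP => ?_⟩
  have h1 : I Δ₁ ≤ I (Δ₁ ⊓ Δ) := fun Q hQ s hs => hQ s hs.1
  have h2 : I (Δ₁ ⊓ Δ) ≤ I Δ₁ := by
    by_contra hcon
    exact hmax _ ⟨Δ₁ ⊓ Δ, inferInstance, rfl⟩ (lt_of_le_not_ge h1 hcon)
  have h3 : P ∈ I (Δ₁ ⊓ Δ) := fun s hs => hP s hs.2
  exact (h2 h3) s hs

end general

variable {g : ℕ} {Z : Matrix (Fin g) (Fin g) ℂ} {K : Type} [Field K] [CharZero K]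
  {Γ : Type} [Group Γ] {ρ : Representation K Γ (K ⊗[ℚ] (Fin g ⊕ Fin g → ℚ))} {χ : Γ →* K}

/-- The endomorphisms of the abelian variety commute with a subgroup of finite index. -/
def EndExt {G : Type} [Group G] (Z : Matrix (Fin g) (Fin g) ℂ)
    (τ : Representation K G (K ⊗[ℚ] (Fin g ⊕ Fin g → ℚ))) : Prop :=
  ∀ Q : Matrix (Fin g ⊕ Fin g) (Fin g ⊕ Fin g) ℚ, Endo Z Q →
    ∃ Δ : Subgroup G, Δ.FiniteIndex ∧ ∀ s ∈ Δ, ∀ v, τ s (bc K Q v) = bc K Q (τ s v)

variable [Algebra K ℂ]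

theorem endExt_self (hρ : IsTateModule (perOne Z) (riem g) ρ χ) : EndExt Z ρ := by
  intro Q hQ
  refine hρ.endo (mulVecLin Q) ?_
  obtain ⟨Mt, hM⟩ := hQ
  refine ⟨mulVecLin Mt, fun v => ?_⟩
  rw [mulVecLin_apply, mulVecLin_apply, hM]

/-- **The products remain Tate tensors.** -/
theorem prod_tate {G : Type} [Group G] {τ : Representation K G (K ⊗[ℚ] (Fin g ⊕ Fin g → ℚ))}
    {χ' : G →* K} {ω : (K ⊗[ℚ] (Fin g ⊕ Fin g → ℚ)) →ₗ[K]
      (K ⊗[ℚ] (Fin g ⊕ Fin g → ℚ)) →ₗ[K] K}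
    (hω : ∀ u v : Fin g ⊕ Fin g → ℚ, ω (1 ⊗ₜ u) (1 ⊗ₜ v) = ((riem g u v : ℚ) : K))
    (hωτ : ∀ s u v, ω (τ s u) (τ s v) = χ' s * ω u v) (he : EndExt Z τ) {n : ℕ}
    {φ : MultilinearMap K (fun _ : Fin n × Fin 2 => K ⊗[ℚ] (Fin g ⊕ Fin g → ℚ)) K}
    (hφ : φ ∈ Submodule.span K {ψ | IsProd Z ψ}) :
    ∃ Δ : Subgroup G, Δ.FiniteIndex ∧ ∀ s ∈ Δ,
      ∀ v : Fin n × Fin 2 → K ⊗[ℚ] (Fin g ⊕ Fin g → ℚ),
        φ (fun x => τ s (v x)) = χ' s ^ n * φ v := by
  induction hφ using Submodule.span_induction with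
  | mem ψ hψ =>
    obtain ⟨a, σ, ha, h⟩ := hψ
    choose Δ hΔ hs using fun l => he (a l) (ha l)
    refine ⟨⨅ l, Δ l, Subgroup.finiteIndex_iInf fun l => hΔ l, fun s hs' v => ?_⟩
    rw [prod_formula hω h, prod_formula hω h]
    have h2 : ∀ l, ω (bc K (a l) (τ s (v (σ (l, 0))))) (τ s (v (σ (l, 1)))) =
        χ' s * ω (bc K (a l) (v (σ (l, 0)))) (v (σ (l, 1))) := by
      intro l
      rw [← hs l s ((Subgroup.mem_iInf.1 hs') l), hωτ]
    rw [Finset.prod_congr rfl fun l _ => h2 l, Finset.prod_mul_distrib, Finset.prod_const,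
      Finset.card_univ, Fintype.card_fin]
  | zero => exact ⟨⊤, inferInstance, fun s _ v => by simp⟩
  | add x y _ _ hx hy =>
    obtain ⟨Δ, hΔ, h⟩ := hx
    obtain ⟨Δ', hΔ', h'⟩ := hy
    refine ⟨Δ ⊓ Δ', inferInstance, fun s hs v => ?_⟩
    rw [_root_.add_apply, _root_.add_apply, h s hs.1, h' s hs.2, mul_add]
  | smul r x _ hx =>
    obtain ⟨Δ, hΔ, h⟩ := hx
    refine ⟨Δ, hΔ, fun s hs v => ?_⟩
    rw [_root_.smul_apply, _root_.smul_apply, h s hs, smul_eq_mul, smul_eq_mul,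
      mul_left_comm]

/-- Tate forms with a wrong number of variables are zero. -/
theorem zero_card (hg : 0 < g)
    {ω : (K ⊗[ℚ] (Fin g ⊕ Fin g → ℚ)) →ₗ[K] (K ⊗[ℚ] (Fin g ⊕ Fin g → ℚ)) →ₗ[K] K}
    (hω : ∀ u v : Fin g ⊕ Fin g → ℚ, ω (1 ⊗ₜ u) (1 ⊗ₜ v) = ((riem g u v : ℚ) : K))
    (hωρ : ∀ g u v, ω (ρ g u) (ρ g v) = χ g * ω u v) (hB : HasHomotheties ρ) {S : Type} [Fintype S]
    {m : ℕ} {φ : MultilinearMap K (fun _ : S => K ⊗[ℚ] (Fin g ⊕ Fin g → ℚ)) K}
    (hφ : IsTateForm ρ χ m φ) (hc : Fintype.card S ≠ 2 * m) : φ = 0 := by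
  obtain ⟨Δ, hΔ, h⟩ := hφ
  obtain ⟨s, hs, c, hgc, hroot⟩ := hB Δ hΔ
  obtain ⟨x, hx⟩ : ∃ x : K ⊗[ℚ] (Fin g ⊕ Fin g → ℚ), x ≠ 0 :=
    ⟨bV K g (Sum.inl ⟨0, hg⟩), (bV K g).ne_zero _⟩
  have hc0 : c ≠ 0 := by
    rintro rfl
    have h1 := hgc (ρ s⁻¹ x)
    rw [zero_smul, ← Module.End.mul_apply, ← map_mul, mul_inv_cancel, map_one,
      Module.End.one_apply] at h1
    exact hx h1
  have hχ : χ s = c ^ 2 := by
    obtain ⟨y, hy⟩ : ∃ y, ω x y ≠ 0 := by
      by_contra hcon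
      push Not at hcon
      exact hx (om_nondeg hω hcon)
    have h1 := hωρ s x y
    rw [hgc, hgc, map_smul, map_smul, LinearMap.smul_apply, smul_eq_mul, smul_eq_mul] at h1
    refine mul_right_cancel₀ hy ?_
    rw [← h1]
    ring
  ext v
  rw [_root_.zero_apply]
  by_contra hv
  have h1 := h s hs v
  have h2 : φ (fun l => ρ s (v l)) = c ^ Fintype.card S * φ v := by
    rw [show (fun l => ρ s (v l)) = fun l => c • v l from funext fun l => hgc (v l),
      MultilinearMap.map_smul_univ, Finset.prod_const, Finset.card_univ, smul_eq_mul]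
  rw [h2, hχ, ← pow_mul] at h1
  have h3 : c ^ Fintype.card S = c ^ (2 * m) := mul_right_cancel₀ hv h1
  rcases lt_or_gt_of_ne hc with h4 | h4
  · refine hroot (2 * m - Fintype.card S) (by omega) ?_
    have h5 : c ^ Fintype.card S * c ^ (2 * m - Fintype.card S) = c ^ Fintype.card S * 1 := by
      rw [← pow_add, Nat.add_sub_cancel' h4.le, mul_one, h3]
    exact mul_left_cancel₀ (pow_ne_zero _ hc0) h5
  · refine hroot (Fintype.card S - 2 * m) (by omega) ?_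
    have h5 : c ^ (2 * m) * c ^ (Fintype.card S - 2 * m) = c ^ (2 * m) * 1 := by
      rw [← pow_add, Nat.add_sub_cancel' h4.le, mul_one, h3]
    exact mul_left_cancel₀ (pow_ne_zero _ hc0) h5

/-- **The groups are equal if and only if the endomorphisms extend.** -/
theorem mono_iff [Algebra.IsAlgebraic K ℂ] (hg : 0 < g)
    [FiniteDimensional K (K ⊗[ℚ] (Fin g ⊕ Fin g → ℚ))] (M : Pol Z) (c1 : M.Cop) (c2 : M.Sep) (c3 : M.Nd)
    (hρ : IsTateModule (perOne Z) (riem g) ρ χ) (hB : HasHomotheties ρ) (hss : TensorSemisimple ρ)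
    {ω : (K ⊗[ℚ] (Fin g ⊕ Fin g → ℚ)) →ₗ[K] (K ⊗[ℚ] (Fin g ⊕ Fin g → ℚ)) →ₗ[K] K}
    (hω : ∀ u v : Fin g ⊕ Fin g → ℚ, ω (1 ⊗ₜ u) (1 ⊗ₜ v) = ((riem g u v : ℚ) : K))
    (Y : Subvariety ρ χ) (hωY : ∀ s u v, ω (Y.rep s u) (Y.rep s v) = Y.mult s * ω u v) :
    monodromy Y.rep = monodromy ρ ↔ EndExt Z Y.rep := by
  obtain ⟨ω', hω', hωρ⟩ := hρ.weil
  have hωω : ω' = ω := by
    refine (bV K g).ext fun i => (bV K g).ext fun j => ?_
    rw [bV_apply, bV_apply, hω, hω']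
  rw [hωω] at hωρ
  constructor
  · intro h Q hQ
    obtain ⟨Δ, hΔ, hs⟩ := exists_mono Y.rep
    obtain ⟨Δ', hΔ', hs'⟩ := endExt_self hρ Q hQ
    refine ⟨Δ, hΔ, fun s hsΔ v => ?_⟩
    have h1 := hs s hsΔ
    rw [h] at h1
    have h2 := lin_mono h1 hΔ' (LinearMap.mulRight K (bc K Q : Module.End K _))
      (LinearMap.mulLeft K (bc K Q : Module.End K _)) (fun t ht => by
        refine LinearMap.ext fun w => ?_
        change ρ t (bc K Q w) = bc K Q (ρ t w)
        exact hs' t ht w)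
    exact congrArg (fun f : Module.End K _ => f v) h2
  · intro he
    refine Set.Subset.antisymm ?_ (monodromy_ge Y)
    refine monodromy_le (χ' := Y.mult) ω (fun x hx => om_nondeg hω hx) hωρ hss fun S _ m φ hφ => ?_
    by_cases hc : Fintype.card S = 2 * m
    · let e : S ≃ Fin m × Fin 2 := Fintype.equivOfCardEq (by
        rw [hc, Fintype.card_prod, Fintype.card_fin, Fintype.card_fin, mul_comm])
      have h1 : ∃ Δ : Subgroup Γ, Δ.FiniteIndex ∧ ∀ s ∈ Δ,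
          ∀ v : Fin m × Fin 2 → K ⊗[ℚ] (Fin g ⊕ Fin g → ℚ),
            φ.domDomCongr e (fun x => ρ s (v x)) = χ s ^ m * φ.domDomCongr e v := by
        obtain ⟨Δ, hΔ, h⟩ := hφ
        exact ⟨Δ, hΔ, fun g hg v => h g hg fun k => v (e k)⟩
      obtain ⟨Δ, hΔ, h⟩ := prod_tate hω hωY he ((tate_iff M c1 c2 c3 hρ _).1 h1)
      refine ⟨Δ, hΔ, fun g hg v => ?_⟩
      have h3 := h g hg fun k => v (e.symm k)
      rw [MultilinearMap.domDomCongr_apply, MultilinearMap.domDomCongr_apply] at h3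
      simpa only [Equiv.symm_apply_apply] using h3
    · rw [zero_card hg hω hωρ hB hφ hc]
      exact ⟨⊤, inferInstance, fun g _ v => by rw [_root_.zero_apply, _root_.zero_apply, mul_zero]⟩

end Pool.Agent.H943.KT
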