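import Mathlib

/-!
# Tate classes on varieties over a power of an abelian variety
-/

set_option autoImplicit false

namespace Pool.Agent.H943.KT

variable {K V Γ W : Type} [Field K] [AddCommGroup V] [Module K V] [Group Γ] [AddCommGroup W]
  [Module K W] {k : ℕ} {κ : Type}

/-- the translate of a form -/
theorem exists_translate (rep : Representation K Γ V) (s : Γ) (c : K)
    (φ : (Fin k → V) [⋀^κ]→ₗ[K] K) :
    ∃ φ' : (Fin k → V) [⋀^κ]→ₗ[K] K, ∀ v, φ' (fun x i => rep s (v x i)) = c * φ v := by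
  refine ⟨c • φ.compLinearMap (LinearMap.pi fun i => rep s⁻¹ ∘ₗ LinearMap.proj i), fun v => ?_⟩
  rw [AlternatingMap.smul_apply, AlternatingMap.compLinearMap_apply, smul_eq_mul]
  congr 2
  funext x i
  change rep s⁻¹ (rep s (v x i)) = v x i
  rw [← Module.End.mul_apply, ← map_mul, inv_mul_cancel, map_one, Module.End.one_apply]

/-- a translate is unique -/
theorem translate_unique (rep : Representation K Γ V) {s : Γ} {φ' φ'' : (Fin k → V) [⋀^κ]→ₗ[K] K}
    (h : ∀ v : κ → Fin k → V, φ' (fun x i => rep s (v x i)) = φ'' (fun x i => rep s (v x i))) :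
    φ' = φ'' := by
  refine AlternatingMap.ext fun v => ?_
  have h1 := h fun x i => rep s⁻¹ (v x i)
  have h2 : (fun (x : κ) (i : Fin k) => rep s (rep s⁻¹ (v x i))) = v := by
    funext x i
    rw [← Module.End.mul_apply, ← map_mul, mul_inv_cancel, map_one, Module.End.one_apply]
  rw [h2] at h1
  exact h1

/-- **Lifting of Tate classes.** -/
theorem lift_tate {m : ℕ} {rep : Representation K Γ V} {χ : Γ →* K} {H : Representation K Γ W}
    {pull : ((Fin k → V) [⋀^κ]→ₗ[K] K) →ₗ[K] W}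
    (h1 : ∀ s φ φ', (∀ v, φ' (fun x i => rep s (v x i)) = χ s ^ m * φ v) →
      pull φ' = H s (pull φ)) {Δ : Subgroup Γ}
    (h3 : ∀ U : Submodule K ((Fin k → V) [⋀^κ]→ₗ[K] K),
      (∀ s ∈ Δ, ∀ φ ∈ U, ∀ φ', (∀ v, φ' (fun x i => rep s (v x i)) = χ s ^ m * φ v) → φ' ∈ U) →
        ∃ U' : Submodule K ((Fin k → V) [⋀^κ]→ₗ[K] K), (∀ s ∈ Δ, ∀ φ ∈ U', ∀ φ',
          (∀ v, φ' (fun x i => rep s (v x i)) = χ s ^ m * φ v) → φ' ∈ U') ∧ IsCompl U U')
    {w : W} (hw : ∀ s ∈ Δ, H s w = w) (hr : w ∈ LinearMap.range pull) :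
    ∃ φ, pull φ = w ∧ ∀ s ∈ Δ, ∀ v, φ (fun x i => rep s (v x i)) = χ s ^ m * φ v := by
  obtain ⟨U', hU', hc⟩ := h3 (LinearMap.ker pull) (fun s hs φ hφ φ' h => by
    rw [LinearMap.mem_ker, h1 s φ φ' h, LinearMap.mem_ker.1 hφ, map_zero])
  obtain ⟨φ₀, hφ₀⟩ := hr
  obtain ⟨a, ha, b, hb, hab⟩ := Submodule.mem_sup.1 (hc.sup_eq_top ▸ Submodule.mem_top (x := φ₀))
  have hbw : pull b = w := by
    rw [← hφ₀, ← hab, map_add, LinearMap.mem_ker.1 ha, zero_add]
  refine ⟨b, hbw, fun s hs v => ?_⟩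
  obtain ⟨b', hb'⟩ := exists_translate rep s (χ s ^ m) b
  have h2 : pull b' = w := by
    rw [h1 s b b' hb', hbw, hw s hs]
  have h4 : b' - b ∈ LinearMap.ker pull := by
    rw [LinearMap.mem_ker, map_sub, h2, hbw, sub_self]
  have h5 : b' - b ∈ U' := Submodule.sub_mem _ (hU' s hs b hb b' hb') hb
  have h6 : b' - b = 0 := by
    have h7 : b' - b ∈ LinearMap.ker pull ⊓ U' := ⟨h4, h5⟩
    rw [hc.inf_eq_bot, Submodule.mem_bot] at h7
    exact h7
  have h8 := hb' v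
  rw [sub_eq_zero.1 h6] at h8
  exact h8

end Pool.Agent.H943.KT
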